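import Pool.Agent.Q109.Tough.Defs

/-! Counting components. -/

set_option autoImplicit false
set_option linter.unusedSectionVars false

namespace Q109.Tough

open Finset

variable {V : Type} [Fintype V] [DecidableEq V]

/-- lower bound: vertices separated by a label that is constant along the edges of `G - S` -/
lemma le_comps {α : Type*} (G : SimpleGraph V) (S : Finset V) (f : V → α)
    (hf : ∀ u v, u ∉ S → v ∉ S → G.Adj u v → f u = f v) (T : Finset V) (hT : ∀ v ∈ T, v ∉ S)
    (hinj : Set.InjOn f T) : T.card ≤ comps G S := by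
  classical
  unfold comps
  have h1 : T.card = Nat.card T := by rw [Nat.card_eq_fintype_card, Fintype.card_coe]
  rw [h1]
  have hreach : ∀ (a b : {v : V | v ∉ S}), (G.induce {v : V | v ∉ S}).Reachable a b →
      f a.1 = f b.1 := by
    rintro a b ⟨w⟩
    induction w with
    | nil => rfl
    | @cons a c b h w ih => exact (hf a.1 c.1 a.2 c.2 h).trans ih
  refine Nat.card_le_card_of_injective
    (fun v : T => (G.induce {v : V | v ∉ S}).connectedComponentMk ⟨v.1, hT v.1 v.2⟩) ?_
  intro a b hab
  have h2 := hreach _ _ (SimpleGraph.ConnectedComponent.exact hab)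
  exact Subtype.ext (hinj a.2 b.2 h2)

/-- upper bound: a set of representatives -/
lemma comps_le (G : SimpleGraph V) (S W : Finset V)
    (h : ∀ v, ∀ hv : v ∉ S, ∃ w ∈ W, ∃ hw : w ∉ S,
      (G.induce {v : V | v ∉ S}).Reachable ⟨w, hw⟩ ⟨v, hv⟩) : comps G S ≤ W.card := by
  classical
  unfold comps
  have h1 : W.card = Nat.card W := by rw [Nat.card_eq_fintype_card, Fintype.card_coe]
  rw [h1]
  have key : ∀ c : (G.induce {v : V | v ∉ S}).ConnectedComponent, ∃ w : W, ∃ hw : w.1 ∉ S,
      (G.induce {v : V | v ∉ S}).connectedComponentMk ⟨w.1, hw⟩ = c := by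
    intro c
    induction c using SimpleGraph.ConnectedComponent.ind with
    | _ v =>
      obtain ⟨w, hw, hwS, hr⟩ := h v.1 v.2
      exact ⟨⟨w, hw⟩, hwS, SimpleGraph.ConnectedComponent.sound hr⟩
  choose g hg hg2 using key
  refine Nat.card_le_card_of_injective g ?_
  intro a b hab
  rw [← hg2 a, ← hg2 b]
  congr 2
  rw [hab]

/-- deleting an edge whose ends stay connected does not change the components -/
lemma comps_delete_le (G : SimpleGraph V) (S : Finset V) (x y : V)
    (h : ∀ (hx : x ∉ S) (hy : y ∉ S),
      ((G.deleteEdges {s(x, y)}).induce {v : V | v ∉ S}).Reachable ⟨x, hx⟩ ⟨y, hy⟩) :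
    comps (G.deleteEdges {s(x, y)}) S ≤ comps G S := by
  classical
  unfold comps
  set G' := G.deleteEdges {s(x, y)} with hG'
  have hle : G'.induce {v : V | v ∉ S} ≤ G.induce {v : V | v ∉ S} := by
    intro a b hab
    have h1 : G'.Adj a.1 b.1 := hab
    rw [hG', SimpleGraph.deleteEdges_adj] at h1
    exact h1.1
  have hreach : ∀ (a b : {v : V | v ∉ S}), (G.induce {v : V | v ∉ S}).Reachable a b →
      (G'.induce {v : V | v ∉ S}).Reachable a b := by
    rintro a b ⟨w⟩
    induction w with
    | nil => exact SimpleGraph.Reachable.rfl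
    | @cons a c b hac w ih =>
      refine SimpleGraph.Reachable.trans ?_ ih
      by_cases he : s(a.1, c.1) = s(x, y)
      · rw [Sym2.eq_iff] at he
        rcases he with ⟨h1, h2⟩ | ⟨h1, h2⟩
        · have hx : x ∉ S := by rw [← h1]; exact a.2
          have hy : y ∉ S := by rw [← h2]; exact c.2
          have ha : a = ⟨x, hx⟩ := Subtype.ext h1
          have hc : c = ⟨y, hy⟩ := Subtype.ext h2
          rw [ha, hc]
          exact h hx hy
        · have hx : x ∉ S := by rw [← h2]; exact c.2
          have hy : y ∉ S := by rw [← h1]; exact a.2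
          have ha : a = ⟨y, hy⟩ := Subtype.ext h1
          have hc : c = ⟨x, hx⟩ := Subtype.ext h2
          rw [ha, hc]
          exact (h hx hy).symm
      · apply SimpleGraph.Adj.reachable
        show G'.Adj a.1 c.1
        rw [hG', SimpleGraph.deleteEdges_adj]
        exact ⟨hac, he⟩
  refine Nat.card_le_card_of_injective
    (SimpleGraph.ConnectedComponent.map (SimpleGraph.Hom.ofLE hle)) ?_
  intro c d hcd
  induction c using SimpleGraph.ConnectedComponent.ind with
  | _ a =>
    induction d using SimpleGraph.ConnectedComponent.ind with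
    | _ b =>
      rw [SimpleGraph.ConnectedComponent.map_mk, SimpleGraph.ConnectedComponent.map_mk] at hcd
      have h1 := SimpleGraph.ConnectedComponent.exact hcd
      exact SimpleGraph.ConnectedComponent.sound (hreach a b h1)

/-- a single vertex outside `S` gives a component -/
lemma comps_pos (G : SimpleGraph V) (S : Finset V) {v : V} (hv : v ∉ S) : 1 ≤ comps G S := by
  have h := le_comps G S (fun _ => ()) (fun _ _ _ _ _ => rfl) {v} (by simpa using hv)
    (by simp)
  simpa using h

end Q109.Tough
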