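import Mathlib

/-! Toughness, minimally tough graphs, co-chordal graphs, the graphs `T l`. -/

set_option autoImplicit false

namespace Q109.Tough

open scoped ENNReal

variable {V : Type}

/-- the number of connected components of `G - S` -/
noncomputable def comps (G : SimpleGraph V) (S : Finset V) : ℕ :=
  Nat.card (G.induce {v : V | v ∉ S}).ConnectedComponent

/-- the toughness: the minimum of `|S| / c(G - S)` over all `S` with `c(G - S) ≥ 2`; it is `∞` if
there is no such `S` (complete graphs) -/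
noncomputable def toughness (G : SimpleGraph V) : ℝ≥0∞ :=
  ⨅ (S : Finset V) (_ : 2 ≤ comps G S), (S.card : ℝ≥0∞) / (comps G S : ℝ≥0∞)

/-- deleting any edge decreases the toughness -/
def MinTough (G : SimpleGraph V) : Prop :=
  ∀ u v, G.Adj u v → toughness (G.deleteEdges {s(u, v)}) < toughness G

/-- minimally tough, and neither complete nor edgeless -/
def NontrivMinTough (G : SimpleGraph V) : Prop := MinTough G ∧ G ≠ ⊤ ∧ G ≠ ⊥

/-- no induced cycle of length at least four -/
def IsChordal (G : SimpleGraph V) : Prop :=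
  ∀ n : ℕ, 4 ≤ n → IsEmpty (SimpleGraph.cycleGraph n ↪g G)

/-- the complement is connected with diameter exactly two -/
def CoDiamTwo (G : SimpleGraph V) : Prop := Gᶜ.Connected ∧ Gᶜ.diam = 2

/-- three disjoint stars with `l` leaves each, with pairwise adjacent centres `(i, none)` -/
def T (l : ℕ) : SimpleGraph (Fin 3 × Option (Fin l)) where
  Adj x y := (x.2 = none ∧ y.2 = none ∧ x.1 ≠ y.1) ∨
    (x.1 = y.1 ∧ ((x.2 = none ∧ y.2 ≠ none) ∨ (x.2 ≠ none ∧ y.2 = none)))
  symm := ⟨by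
    rintro x y (⟨h1, h2, h3⟩ | ⟨h1, h2⟩)
    · exact Or.inl ⟨h2, h1, h3.symm⟩
    · rcases h2 with ⟨h2, h3⟩ | ⟨h2, h3⟩
      · exact Or.inr ⟨h1.symm, Or.inr ⟨h3, h2⟩⟩
      · exact Or.inr ⟨h1.symm, Or.inl ⟨h3, h2⟩⟩⟩
  loopless := ⟨by
    rintro x (⟨_, _, h3⟩ | ⟨_, ⟨h2, h3⟩ | ⟨h2, h3⟩⟩)
    · exact h3 rfl
    · exact h3 h2
    · exact h2 h3⟩

end Q109.Tough
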