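import Pool.Agent.Q109.Tough.Small

/-! From the definitions to the standing assumptions. -/

set_option autoImplicit false
set_option linter.unusedSectionVars false

namespace Q109.Tough

open Finset
open scoped ENNReal

variable {V : Type} [Fintype V] [DecidableEq V] {G : SimpleGraph V}

lemma toughness_lt_top (hG : G ≠ ⊤) : toughness G < ⊤ := by
  classical
  obtain ⟨u, v, huv, hnadj⟩ : ∃ u v, u ≠ v ∧ ¬ G.Adj u v := by
    by_contra hcon
    push Not at hcon
    apply hG
    ext u v
    rw [SimpleGraph.top_adj]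
    exact ⟨fun h => h.ne, fun h => hcon u v h⟩
  have h1 : ({u, v} : Finset V).card ≤ comps G (univ \ {u, v}) := by
    apply le_comps G _ (fun x => x)
    · intro a b ha hb hab
      rw [mem_sdiff, not_and, not_not] at ha hb
      have ha' := ha (mem_univ a)
      have hb' := hb (mem_univ b)
      rw [mem_insert, mem_singleton] at ha' hb'
      exfalso
      rcases ha' with rfl | rfl <;> rcases hb' with rfl | rfl
      · exact G.loopless.irrefl _ hab
      · exact hnadj hab
      · exact hnadj hab.symm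
      · exact G.loopless.irrefl _ hab
    · intro x hx h
      exact (mem_sdiff.1 h).2 hx
    · intro a _ b _ h; exact h
  rw [card_pair huv] at h1
  refine lt_of_le_of_lt (iInf₂_le (univ \ {u, v}) h1) ?_
  apply ENNReal.div_lt_top (ENNReal.natCast_ne_top _)
  have : comps G (univ \ {u, v}) ≠ 0 := by omega
  exact_mod_cast this

lemma ratio_le {a b : ℕ} (hb : 0 < b) {t : ℝ} (ht : 0 ≤ t)
    (h : ENNReal.ofReal t ≤ (a : ℝ≥0∞) / (b : ℝ≥0∞)) : t * b ≤ a := by
  have hb' : (b : ℝ≥0∞) ≠ 0 := by exact_mod_cast hb.ne'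
  rw [ENNReal.le_div_iff_mul_le (Or.inl hb') (Or.inl (ENNReal.natCast_ne_top _)),
    ← ENNReal.ofReal_natCast b, ← ENNReal.ofReal_natCast a, ← ENNReal.ofReal_mul ht] at h
  exact (ENNReal.ofReal_le_ofReal_iff (Nat.cast_nonneg _)).1 h

lemma ratio_lt {a b : ℕ} (hb : 0 < b) {t : ℝ} (ht : 0 < t)
    (h : (a : ℝ≥0∞) / (b : ℝ≥0∞) < ENNReal.ofReal t) : (a : ℝ) < t * b := by
  by_contra hcon
  push Not at hcon
  have hb' : (b : ℝ≥0∞) ≠ 0 := by exact_mod_cast hb.ne'
  apply not_le_of_gt h
  rw [ENNReal.le_div_iff_mul_le (Or.inl hb') (Or.inl (ENNReal.natCast_ne_top _)),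
    ← ENNReal.ofReal_natCast b, ← ENNReal.ofReal_natCast a, ← ENNReal.ofReal_mul ht.le]
  exact ENNReal.ofReal_le_ofReal hcon

lemma hyp_of (hG : NontrivMinTough G) : Hyp G (toughness G).toReal := by
  classical
  obtain ⟨hmin, htop, hbot⟩ := hG
  obtain ⟨u, v, huv⟩ : ∃ u v, G.Adj u v := by
    by_contra hcon
    push Not at hcon
    apply hbot
    ext u v
    rw [SimpleGraph.bot_adj]
    exact ⟨fun h => hcon u v h, fun h => h.elim⟩
  have hlt := toughness_lt_top htop
  have hpos : 0 < toughness G := lt_of_le_of_lt bot_le (hmin u v huv)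
  have hT : ENNReal.ofReal (toughness G).toReal = toughness G := ENNReal.ofReal_toReal hlt.ne
  have ht : 0 < (toughness G).toReal := ENNReal.toReal_pos hpos.ne' hlt.ne
  refine ⟨ht, ?_, ?_⟩
  · intro S hS
    apply ratio_le (by omega) ht.le
    rw [hT]
    exact iInf₂_le S hS
  · intro x y hxy
    have h1 := hmin x y hxy
    unfold toughness at h1
    rw [iInf_lt_iff] at h1
    obtain ⟨S, hS⟩ := h1
    rw [iInf_lt_iff] at hS
    obtain ⟨hS2, hS3⟩ := hS
    refine ⟨S, hS2, ?_⟩
    apply ratio_lt (by omega) ht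
    rw [hT]
    exact hS3

lemma common_of {H : SimpleGraph V} (hc : H.Connected) (hd : H.diam = 2) (x y : V) (hne : x ≠ y)
    (hxy : ¬ H.Adj x y) : ∃ c, H.Adj x c ∧ H.Adj y c := by
  have h1 : H.ediam ≠ ⊤ := H.ediam_ne_top_of_diam_ne_zero (by rw [hd]; norm_num)
  have h2 : H.dist x y ≤ 2 := by rw [← hd]; exact SimpleGraph.dist_le_diam h1
  obtain ⟨p, hp⟩ := hc.exists_walk_length_eq_dist x y
  rw [← hp] at h2
  match p, h2 with
  | .nil, _ => exact absurd rfl hne
  | .cons h .nil, _ => exact absurd h hxy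
  | .cons h (.cons h' .nil), _ => exact ⟨_, h, h'.symm⟩
  | .cons _ (.cons _ (.cons _ q)), h2 =>
    simp only [SimpleGraph.Walk.length_cons] at h2
    omega

lemma ctx_of (hG : NontrivMinTough G) (hch : IsChordal Gᶜ) (hd : CoDiamTwo G) :
    Ctx G (toughness G).toReal := by
  classical
  have hH := hyp_of hG
  refine { toHyp := hH, chordal := hch, common := common_of hd.1 hd.2, nouniv := ?_ }
  intro c
  by_contra hcon
  push Not at hcon
  have hnt : Nontrivial V := SimpleGraph.nontrivial_of_diam_ne_zero (G := Gᶜ)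
    (by rw [hd.2]; norm_num)
  obtain ⟨w, hw⟩ := exists_ne c
  have h1 : ({c, w} : Finset V).card ≤ comps G ∅ := by
    apply le_comps G _ (fun x => decide (x = c))
    · intro a b _ _ hab
      have ha : a ≠ c := by
        rintro rfl
        exact cadj hab (hcon b hab.ne.symm)
      have hb : b ≠ c := by
        rintro rfl
        exact cadj hab.symm (hcon a hab.ne)
      simp [ha, hb]
    · intro x _; exact notMem_empty x
    · intro a ha b hb hab
      rw [mem_coe, mem_insert, mem_singleton] at ha hb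
      rcases ha with rfl | rfl <;> rcases hb with rfl | rfl
      · rfl
      · simp [hw] at hab
      · simp [hw] at hab
      · rfl
  rw [card_pair hw.symm] at h1
  have h2 := hH.tough ∅ h1
  rw [card_empty, Nat.cast_zero] at h2
  have h3 : (2 : ℝ) ≤ comps G ∅ := by exact_mod_cast h1
  have h4 := hH.pos
  nlinarith

/-- **Forward direction.** -/
theorem forward (hG : NontrivMinTough G) (hch : IsChordal Gᶜ) (hd : CoDiamTwo G) :
    ∃ l : ℕ, 1 ≤ l ∧ Nonempty (G ≃g T l) := by
  have hnt : Nontrivial V := SimpleGraph.nontrivial_of_diam_ne_zero (G := Gᶜ)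
    (by rw [hd.2]; norm_num)
  exact iso_T (ctx_of hG hch hd)

end Q109.Tough
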