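import Pool.Agent.Q109.Tough.Ineq

/-! The neighbourhoods of the simplicial vertices of the complement form a clique. -/

set_option autoImplicit false
set_option linter.unusedSectionVars false

namespace Q109.Tough

open Finset

variable {V : Type} [Fintype V] [DecidableEq V]

/-- the standing assumptions -/
structure Ctx (G : SimpleGraph V) (t : ℝ) : Prop extends Hyp G t where
  chordal : IsChordal Gᶜ
  common : ∀ x y, x ≠ y → ¬ Gᶜ.Adj x y → ∃ c, Gᶜ.Adj x c ∧ Gᶜ.Adj y c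
  nouniv : ∀ c, ∃ w, w ≠ c ∧ ¬ Gᶜ.Adj c w

variable {G : SimpleGraph V} {t : ℝ}

lemma cadj {a b : V} (h : G.Adj a b) : ¬ Gᶜ.Adj a b := by
  rw [SimpleGraph.compl_adj]
  exact fun h' => h'.2 h

lemma adj_of {a b : V} (hne : a ≠ b) (h : ¬ Gᶜ.Adj a b) : G.Adj a b := by
  by_contra h3
  exact h ((SimpleGraph.compl_adj _ _ _).2 ⟨hne, h3⟩)

/-- lower bound for the common non-neighbours -/
lemma M_ge (hG : Ctx G t) {x y : V} (hxy : G.Adj x y) (hx : Simp Gᶜ x) (hy : Simp Gᶜ y)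
    (Z : Finset V) (hZ : Z ⊆ Ms Gᶜ x y) (hZ2 : ∀ z ∈ Z, ∀ c ∈ Cs Gᶜ x y, Gᶜ.Adj c z) :
    t * ((Cs Gᶜ x y).card + 1) + Z.card ≤ (Ms Gᶜ x y).card := by
  classical
  have hne : x ≠ y := hxy.ne
  obtain ⟨c, hc1, hc2⟩ := hG.common x y hne (cadj hxy)
  have hK : ∀ a ∈ Cs Gᶜ x y, ∀ b ∈ Cs Gᶜ x y, a ≠ b → Gᶜ.Adj a b := by
    intro a ha b hb hab
    exact hx a b (mem_Cs.1 ha).1 (mem_Cs.1 hb).1 hab
  have hcl : ∀ r ∈ ({x, y} : Finset V) ∪ (Ps Gᶜ x y ∪ (Ps Gᶜ y x ∪ Z)), ∀ k ∈ Cs Gᶜ x y,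
      Gᶜ.Adj k r := by
    intro r hr k hk
    have hk' := mem_Cs.1 hk
    rw [mem_union, mem_union, mem_union, mem_insert, mem_singleton] at hr
    rcases hr with (rfl | rfl) | hr | hr | hr
    · exact hk'.1.symm
    · exact hk'.2.symm
    · have hr' := mem_Ps.1 hr
      apply hy k r hk'.2 hr'.2.2
      rintro rfl
      exact hr'.2.1 hk'.1
    · have hr' := mem_Ps.1 hr
      apply hx k r hk'.1 hr'.2.2
      rintro rfl
      exact hr'.2.1 hk'.2
    · exact hZ2 r hr k hk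
  have h1 := clique_ineq_a hG.toHyp hK ⟨c, mem_Cs.2 ⟨hc1, hc2⟩⟩ (R := ({x, y} : Finset V) ∪
    (Ps Gᶜ x y ∪ (Ps Gᶜ y x ∪ Z))) ⟨x, by simp⟩ hcl
  have d1 : Disjoint (Ps Gᶜ y x) Z := by
    rw [disjoint_left]
    intro v hv hv'
    exact (mem_Ms.1 (hZ hv')).2.2.1 (mem_Ps.1 hv).2.2
  have d2 : Disjoint (Ps Gᶜ x y) (Ps Gᶜ y x ∪ Z) := by
    rw [disjoint_left]
    intro v hv hv'
    rw [mem_union] at hv'
    rcases hv' with h | h
    · exact (mem_Ps.1 hv).2.1 (mem_Ps.1 h).2.2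
    · exact (mem_Ms.1 (hZ h)).2.2.2 (mem_Ps.1 hv).2.2
  have d3 : Disjoint ({x, y} : Finset V) (Ps Gᶜ x y ∪ (Ps Gᶜ y x ∪ Z)) := by
    rw [disjoint_left]
    intro v hv hv'
    rw [mem_insert, mem_singleton] at hv
    rw [mem_union, mem_union] at hv'
    rcases hv with rfl | rfl
    · rcases hv' with h | h | h
      · exact (mem_Ps.1 h).1 rfl
      · exact Gᶜ.loopless.irrefl _ (mem_Ps.1 h).2.2
      · exact (mem_Ms.1 (hZ h)).1 rfl
    · rcases hv' with h | h | h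
      · exact Gᶜ.loopless.irrefl _ (mem_Ps.1 h).2.2
      · exact (mem_Ps.1 h).1 rfl
      · exact (mem_Ms.1 (hZ h)).2.1 rfl
  rw [card_union_of_disjoint d3, card_union_of_disjoint d2, card_union_of_disjoint d1,
    card_pair hne, card_split hne (cadj hxy)] at h1
  push_cast at h1
  linarith

/-- the case `t ≤ 1` -/
lemma good_small (hG : Ctx G t) (ht : t ≤ 1) {x y : V} (hxy : G.Adj x y) (hx : Simp Gᶜ x)
    (hy : Simp Gᶜ y) : ∀ p ∈ Ps Gᶜ x y, ∀ q ∈ Ps Gᶜ y x, Gᶜ.Adj p q := by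
  obtain ⟨P0, Q0, _, _, hcompl, hlt⟩ := pair_ineq hG.toHyp hxy hx hy
  have h1 := M_ge hG hxy hx hy ∅ (empty_subset _) (by simp)
  rw [card_empty, Nat.cast_zero, add_zero] at h1
  have h2 : ((P0.card + Q0.card : ℕ) : ℝ) < 1 := by push_cast; nlinarith
  have h3 : P0.card + Q0.card < 1 := by exact_mod_cast h2
  have hP0 : P0 = ∅ := card_eq_zero.1 (by omega)
  have hQ0 : Q0 = ∅ := card_eq_zero.1 (by omega)
  intro p hp q hq
  exact hcompl p hp (by rw [hP0]; simp) q hq (by rw [hQ0]; simp)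

open Classical in
/-- neighbourhood as a finset -/
noncomputable def Ds (H : SimpleGraph V) (x : V) : Finset V := univ.filter (fun v => H.Adj x v)

lemma mem_Ds {H : SimpleGraph V} {x v : V} : v ∈ Ds H x ↔ H.Adj x v := by
  classical
  simp [Ds]

lemma card_Ds {H : SimpleGraph V} {x y : V} (hxy : ¬ H.Adj x y) :
    (Ds H x).card = (Cs H x y).card + (Ps H y x).card := by
  classical
  rw [← card_union_of_disjoint]
  · congr 1
    ext v
    rw [mem_union, mem_Ds, mem_Cs, mem_Ps]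
    constructor
    · intro h
      by_cases h2 : H.Adj y v
      · exact Or.inl ⟨h, h2⟩
      · refine Or.inr ⟨?_, h2, h⟩
        rintro rfl
        exact hxy h
    · rintro (h | h)
      · exact h.1
      · exact h.2.2
  · rw [disjoint_left]
    intro v hv hv'
    exact (mem_Ps.1 hv').2.1 (mem_Cs.1 hv).2

lemma Cs_comm {H : SimpleGraph V} {x y : V} : Cs H x y = Cs H y x := by
  classical
  ext v
  rw [mem_Cs, mem_Cs]
  exact and_comm

/-- `x` and `x'` are twins -/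
def Twin (H : SimpleGraph V) (x x' : V) : Prop :=
  x' ≠ x ∧ H.Adj x x' ∧ ∀ v, v ≠ x → v ≠ x' → (H.Adj x v ↔ H.Adj x' v)

/-- a clique -/
def Clq (H : SimpleGraph V) (K : Finset V) : Prop := ∀ a ∈ K, ∀ b ∈ K, a ≠ b → H.Adj a b

lemma clq_insert {H : SimpleGraph V} {x : V} (hx : Simp H x) : Clq H (insert x (Ds H x)) := by
  classical
  intro a ha b hb hab
  rw [mem_insert, mem_Ds] at ha hb
  rcases ha with rfl | ha <;> rcases hb with rfl | hb
  · exact absurd rfl hab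
  · exact hb
  · exact ha.symm
  · exact hx a b ha hb hab

lemma card_insert_Ds {H : SimpleGraph V} (x : V) : (insert x (Ds H x)).card = (Ds H x).card + 1 := by
  classical
  rw [card_insert_of_notMem]
  rw [mem_Ds]
  exact H.loopless.irrefl x

/-- the assumptions of the case `t > 1`: `om` is the clique number of the complement -/
structure Big (G : SimpleGraph V) (t : ℝ) (om : ℕ) : Prop extends Ctx G t where
  big : 1 < t
  max : ∀ K : Finset V, Clq Gᶜ K → K.card ≤ om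
  lower : (t + 1) * om ≤ Fintype.card V

/-- the basic inequality in the case `t > 1` -/
lemma big_ineq {om : ℕ} (hG : Big G t om) {x y : V} (hxy : G.Adj x y) (hx : Simp Gᶜ x)
    (hy : Simp Gᶜ y) : ∃ P0 Q0 : Finset V, P0 ⊆ Ps Gᶜ x y ∧ Q0 ⊆ Ps Gᶜ y x ∧
      (∀ p ∈ Ps Gᶜ x y, p ∉ P0 → ∀ q ∈ Ps Gᶜ y x, q ∉ Q0 → Gᶜ.Adj p q) ∧
      (Fintype.card V : ℝ) + P0.card + Q0.card < t * ((Cs Gᶜ x y).card + 2) + 2 +
        (Cs Gᶜ x y).card + (Ps Gᶜ x y).card + (Ps Gᶜ y x).card ∧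
      (Cs Gᶜ x y).card + (Ps Gᶜ x y).card + 1 ≤ om ∧
      (Cs Gᶜ x y).card + (Ps Gᶜ y x).card + 1 ≤ om := by
  obtain ⟨P0, Q0, h1, h2, h3, h4⟩ := pair_ineq hG.toHyp hxy hx hy
  refine ⟨P0, Q0, h1, h2, h3, ?_, ?_, ?_⟩
  · have h5 : ((Fintype.card V : ℕ) : ℝ) = ((2 + (Cs Gᶜ x y).card + (Ps Gᶜ x y).card +
      (Ps Gᶜ y x).card + (Ms Gᶜ x y).card : ℕ) : ℝ) := by rw [card_split hxy.ne (cadj hxy)]
    rw [h5]
    push_cast
    linarith
  · have h5 := hG.max _ (clq_insert hy)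
    rw [card_insert_Ds, card_Ds (fun h => cadj hxy h.symm), Cs_comm] at h5
    exact h5
  · have h5 := hG.max _ (clq_insert hx)
    rw [card_insert_Ds, card_Ds (cadj hxy)] at h5
    exact h5

/-- if the order is large then all pairs are good -/
lemma good_of_tight {om : ℕ} (hG : Big G t om) (hn : (t + 1) * om + 1 ≤ Fintype.card V) {x y : V}
    (hxy : G.Adj x y) (hx : Simp Gᶜ x) (hy : Simp Gᶜ y) :
    ∀ p ∈ Ps Gᶜ x y, ∀ q ∈ Ps Gᶜ y x, Gᶜ.Adj p q := by
  obtain ⟨P0, Q0, hP0, hQ0, hcompl, hlt, h1, h2⟩ := big_ineq hG hxy hx hy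
  intro p hp q hq
  by_contra hpq
  have h3 : 1 ≤ P0.card + Q0.card := by
    by_contra hcon
    have e1 : P0 = ∅ := card_eq_zero.1 (by omega)
    have e2 : Q0 = ∅ := card_eq_zero.1 (by omega)
    exact hpq (hcompl p hp (by rw [e1]; simp) q hq (by rw [e2]; simp))
  have h4 : 1 ≤ (Ps Gᶜ y x).card := card_pos.2 ⟨q, hq⟩
  have h5 : 1 ≤ (Ps Gᶜ x y).card := card_pos.2 ⟨p, hp⟩
  have r1 : (1 : ℝ) ≤ (P0.card : ℝ) + Q0.card := by exact_mod_cast h3
  have r2 : ((Cs Gᶜ x y).card : ℝ) + (Ps Gᶜ x y).card + 1 ≤ om := by exact_mod_cast h1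
  have r3 : ((Cs Gᶜ x y).card : ℝ) + (Ps Gᶜ y x).card + 1 ≤ om := by exact_mod_cast h2
  have r4 : (1 : ℝ) ≤ (Ps Gᶜ y x).card := by exact_mod_cast h4
  have hb := hG.big
  nlinarith [mul_nonneg (sub_nonneg.2 hb.le) (sub_nonneg.2 (show (((Cs Gᶜ x y).card : ℝ) + 2) ≤ om
    by linarith))]

/-- pair fact: one clique is small -/
lemma pf1 {om : ℕ} (hG : Big G t om) {x y : V} (hxy : G.Adj x y) (hx : Simp Gᶜ x)
    (hy : Simp Gᶜ y) (hsm : (Ds Gᶜ y).card + 1 < om) :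
    (Ds Gᶜ y).card + 2 = om ∧ (Ds Gᶜ x).card + 1 = om ∧
      ∀ p ∈ Ps Gᶜ x y, ∀ q ∈ Ps Gᶜ y x, Gᶜ.Adj p q := by
  obtain ⟨P0, Q0, hP0, hQ0, hcompl, hlt, h1, h2⟩ := big_ineq hG hxy hx hy
  rw [card_Ds (fun h => cadj hxy h.symm), Cs_comm] at hsm ⊢
  rw [card_Ds (cadj hxy)]
  have hb := hG.big
  have hlow := hG.lower
  obtain ⟨dy, hdy⟩ : ∃ dy, om = (Cs Gᶜ x y).card + (Ps Gᶜ x y).card + 2 + dy :=
    ⟨om - ((Cs Gᶜ x y).card + (Ps Gᶜ x y).card + 2), by omega⟩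
  obtain ⟨dx, hdx⟩ : ∃ dx, om = (Cs Gᶜ x y).card + (Ps Gᶜ y x).card + 1 + dx :=
    ⟨om - ((Cs Gᶜ x y).card + (Ps Gᶜ y x).card + 1), by omega⟩
  have ry : (om : ℝ) = (Cs Gᶜ x y).card + (Ps Gᶜ x y).card + 2 + dy := by exact_mod_cast hdy
  have rx : (om : ℝ) = (Cs Gᶜ x y).card + (Ps Gᶜ y x).card + 1 + dx := by exact_mod_cast hdx
  have rp : (0 : ℝ) ≤ (Ps Gᶜ x y).card := Nat.cast_nonneg _
  have rdy : (0 : ℝ) ≤ dy := Nat.cast_nonneg _
  have rdx : (0 : ℝ) ≤ dx := Nat.cast_nonneg _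
  have rP0 : (0 : ℝ) ≤ P0.card := Nat.cast_nonneg _
  have rQ0 : (0 : ℝ) ≤ Q0.card := Nat.cast_nonneg _
  -- t * (dy + 1) + dx + rho < t + 1
  have key : t * dy + dx + P0.card + Q0.card < 1 := by
    nlinarith [mul_nonneg (sub_nonneg.2 hb.le) rp]
  have e1 : (dy : ℝ) + dx + P0.card + Q0.card < 1 := by nlinarith [mul_nonneg (sub_nonneg.2 hb.le) rdy]
  have e2 : dy + dx + P0.card + Q0.card < 1 := by exact_mod_cast e1
  have e3 : P0 = ∅ := card_eq_zero.1 (by omega)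
  have e4 : Q0 = ∅ := card_eq_zero.1 (by omega)
  refine ⟨by omega, by omega, ?_⟩
  intro p hp q hq
  exact hcompl p hp (by rw [e3]; simp) q hq (by rw [e4]; simp)

/-- twins and non-adjacent vertices -/
lemma twin_mem {x y x' : V} (hne : x ≠ y) (hxy : ¬ Gᶜ.Adj x y) (ht : Twin Gᶜ x x') :
    x' ∈ Ps Gᶜ y x ∧ ∀ p ∈ Ps Gᶜ x y, ¬ Gᶜ.Adj p x' := by
  obtain ⟨h1, h2, h3⟩ := ht
  have hy : y ≠ x' := by rintro rfl; exact hxy h2
  constructor
  · rw [mem_Ps]
    refine ⟨hy.symm, ?_, h2⟩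
    intro h
    exact hxy ((h3 y hne.symm hy).2 h.symm)
  · intro p hp hpx
    have hp' := mem_Ps.1 hp
    exact hp'.2.1 ((h3 p hp'.1 hpx.ne).2 hpx.symm)

/-- a vertex with a twin and a largest clique -/
lemma twin_struct {om : ℕ} (hG : Big G t om) {x y x' : V} (hxy : G.Adj x y) (hx : Simp Gᶜ x)
    (hy : Simp Gᶜ y) (hxt : Twin Gᶜ x x') (hxs : (Ds Gᶜ x).card + 1 = om)
    (hyg : (∃ y', Twin Gᶜ y y') ∨ (Ds Gᶜ y).card + 1 < om) :
    ∀ v, Gᶜ.Adj x v → v = x' ∨ Gᶜ.Adj y v := by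
  have hne : x ≠ y := hxy.ne
  have hnad := cadj hxy
  obtain ⟨hx'Q, hx'P⟩ := twin_mem hne hnad hxt
  -- it is enough that `Ps y x` has one element
  suffices hQ1 : (Ps Gᶜ y x).card ≤ 1 by
    intro v hv
    by_cases hyv : Gᶜ.Adj y v
    · exact Or.inr hyv
    · left
      have hvQ : v ∈ Ps Gᶜ y x := by
        rw [mem_Ps]
        refine ⟨?_, hyv, hv⟩
        rintro rfl
        exact hnad hv
      exact card_le_one.1 hQ1 v hvQ x' hx'Q
  by_cases hsm : (Ds Gᶜ y).card + 1 < om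
  · obtain ⟨h1, _, h3⟩ := pf1 hG hxy hx hy hsm
    have hP : Ps Gᶜ x y = ∅ := by
      rw [eq_empty_iff_forall_notMem]
      intro p hp
      exact hx'P p hp (h3 p hp x' hx'Q)
    rw [card_Ds (fun h => hnad h.symm), Cs_comm, hP, card_empty] at h1
    rw [card_Ds hnad] at hxs
    omega
  · have hys : (Ds Gᶜ y).card + 1 = om := by
      have := hG.max _ (clq_insert hy)
      rw [card_insert_Ds] at this
      omega
    obtain ⟨y', hyt⟩ := hyg.resolve_right hsm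
    obtain ⟨hy'P, hy'Q⟩ := twin_mem hne.symm (fun h => hnad h.symm) hyt
    obtain ⟨P0, Q0, hP0, hQ0, hcompl, hlt, h1, h2⟩ := big_ineq hG hxy hx hy
    have hlow := hG.lower
    have hb := hG.big
    have c1 : (Cs Gᶜ x y).card + (Ps Gᶜ y x).card + 1 = om := by rw [← card_Ds hnad]; exact hxs
    have c2 : (Cs Gᶜ x y).card + (Ps Gᶜ x y).card + 1 = om := by
      rw [Cs_comm, ← card_Ds (fun h => hnad h.symm)]; exact hys
    have r1 : ((Cs Gᶜ x y).card : ℝ) + (Ps Gᶜ y x).card + 1 = om := by exact_mod_cast c1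
    have r2 : ((Cs Gᶜ x y).card : ℝ) + (Ps Gᶜ x y).card + 1 = om := by exact_mod_cast c2
    have r3 : (1 : ℝ) ≤ (Ps Gᶜ y x).card := by exact_mod_cast card_pos.2 ⟨x', hx'Q⟩
    have key : (P0.card : ℝ) + Q0.card < 2 := by
      nlinarith [mul_nonneg (sub_nonneg.2 hb.le) (sub_nonneg.2 r3)]
    have key2 : P0.card + Q0.card < 2 := by exact_mod_cast key
    by_cases hxQ0 : x' ∈ Q0
    · have hQ0pos : 1 ≤ Q0.card := card_pos.2 ⟨x', hxQ0⟩
      have hP0e : P0 = ∅ := card_eq_zero.1 (by omega)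
      have hsub : Ps Gᶜ y x ⊆ Q0 := by
        intro q hq
        by_contra hqQ
        exact hy'Q q hq (hcompl y' hy'P (by rw [hP0e]; simp) q hq hqQ).symm
      have := card_le_card hsub
      omega
    · have hsub : Ps Gᶜ x y ⊆ P0 := by
        intro p hp
        by_contra hpP
        exact hx'P p hp (hcompl p hp hpP x' hx'Q hxQ0)
      have := card_le_card hsub
      omega

/-- good vertices away from a given vertex -/
lemma good_vertex {om : ℕ} (hG : Big G t om) (hn : (Fintype.card V : ℝ) < (t + 1) * om + 1)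
    (c : V) : ∃ k, k ≠ c ∧ ¬ Gᶜ.Adj c k ∧ Simp Gᶜ k ∧
      ((∃ k', Twin Gᶜ k k') ∨ (Ds Gᶜ k).card + 1 < om) := by
  classical
  obtain ⟨w, hw, hcw⟩ := hG.nouniv c
  obtain ⟨k, hk1, hk2, hk3, hk4⟩ := moplex hG.chordal c w hw hcw
  refine ⟨k, hk1, hk2, hk3, ?_⟩
  rcases hk4 with ⟨k', h⟩ | ⟨z, hz1, hz2, hz3⟩
  · exact Or.inl ⟨k', h⟩
  · right
    obtain ⟨d, hd1, _⟩ := hG.common k z hz1.symm hz2
    have h1 := clique_ineq_a hG.toHyp (K := Ds Gᶜ k) (R := {k, z})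
      (by
        intro a ha b hb hab
        exact hk3 a b (mem_Ds.1 ha) (mem_Ds.1 hb) hab)
      ⟨d, mem_Ds.2 hd1⟩ ⟨k, by simp⟩
      (by
        intro r hr a ha
        rw [mem_insert, mem_singleton] at hr
        rw [mem_Ds] at ha
        rcases hr with rfl | rfl
        · exact ha.symm
        · exact (hz3 a ha).symm)
    rw [card_pair hz1.symm] at h1
    have hb := hG.big
    have h2 : (t + 1) * (((Ds Gᶜ k).card : ℝ) + 1) < (t + 1) * om := by
      push_cast at h1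
      linarith
    have h3 : ((Ds Gᶜ k).card : ℝ) + 1 < om := lt_of_mul_lt_mul_left h2 (by linarith)
    exact_mod_cast h3

/-- for `t > 1` the order is large -/
lemma tight {om : ℕ} (hG : Big G t om) [Nonempty V] : (t + 1) * om + 1 ≤ Fintype.card V := by
  by_contra hcon
  push Not at hcon
  -- no good vertex has a twin and a largest clique
  have hno : ∀ x x', Simp Gᶜ x → Twin Gᶜ x x' → (Ds Gᶜ x).card + 1 = om → False := by
    intro x x' hx hxt hxs
    obtain ⟨y, hy1, hy2, hy3, hy4⟩ := good_vertex hG hcon x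
    have hxy : G.Adj x y := adj_of hy1.symm hy2
    have hU := twin_struct hG hxy hx hy3 hxt hxs hy4
    obtain ⟨c, hc1, hc2⟩ := hG.common x y hy1.symm hy2
    have hx'Q := (twin_mem hy1.symm hy2 hxt).1
    have hcx' : c ≠ x' := by
      rintro rfl
      exact (mem_Ps.1 hx'Q).2.1 hc2
    obtain ⟨k, hk1, hk2, hk3, hk4⟩ := good_vertex hG hcon c
    have hkx : k ≠ x := by
      rintro rfl
      exact hk2 hc1.symm
    by_cases hxk : Gᶜ.Adj x k
    · rcases hU k hxk with rfl | hyk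
      · exact hk2 ((hxt.2.2 c hc1.ne.symm hcx').1 hc1).symm
      · exact hk2 (hx c k hc1 hxk hk1.symm)
    · rcases twin_struct hG (adj_of hkx.symm hxk) hx hk3 hxt hxs hk4 c hc1 with h | h
      · exact hcx' h
      · exact hk2 h.symm
  obtain ⟨c0⟩ := ‹Nonempty V›
  obtain ⟨x, _, _, hx3, hx4⟩ := good_vertex hG hcon c0
  obtain ⟨y, hy1, hy2, hy3, hy4⟩ := good_vertex hG hcon x
  have hxs : (Ds Gᶜ x).card + 1 < om := by
    by_contra h
    have h1 := hG.max _ (clq_insert hx3)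
    rw [card_insert_Ds] at h1
    obtain ⟨x', hx'⟩ := hx4.resolve_right h
    exact hno x x' hx3 hx' (by omega)
  have hys : (Ds Gᶜ y).card + 1 < om := by
    by_contra h
    have h1 := hG.max _ (clq_insert hy3)
    rw [card_insert_Ds] at h1
    obtain ⟨y', hy'⟩ := hy4.resolve_right h
    exact hno y y' hy3 hy' (by omega)
  have := (pf1 hG (adj_of hy1.symm hy2) hx3 hy3 hys).2.1
  omega

/-- all pairs of adjacent vertices that are simplicial in the complement are good -/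
theorem good_all (hG : Ctx G t) [Nonempty V] {x y : V} (hxy : G.Adj x y) (hx : Simp Gᶜ x)
    (hy : Simp Gᶜ y) : ∀ p ∈ Ps Gᶜ x y, ∀ q ∈ Ps Gᶜ y x, Gᶜ.Adj p q := by
  classical
  rcases le_or_gt t 1 with ht | ht
  · exact good_small hG ht hxy hx hy
  · -- a largest clique
    obtain ⟨K0, hK0, hmax⟩ := exists_max_image (univ.filter (fun K : Finset V => Clq Gᶜ K))
      (fun K => K.card) ⟨∅, by
        rw [mem_filter]
        exact ⟨mem_univ _, fun a ha => absurd ha (notMem_empty a)⟩⟩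
    rw [mem_filter] at hK0
    obtain ⟨c, hc1, hc2⟩ := hG.common x y hxy.ne (cadj hxy)
    have h2 : 2 ≤ K0.card := by
      have h3 := hmax {x, c} (by
        rw [mem_filter]
        refine ⟨mem_univ _, ?_⟩
        intro a ha b hb hab
        rw [mem_insert, mem_singleton] at ha hb
        rcases ha with rfl | rfl <;> rcases hb with rfl | rfl
        · exact absurd rfl hab
        · exact hc1
        · exact hc1.symm
        · exact absurd rfl hab)
      rw [card_pair hc1.ne] at h3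
      exact h3
    have hB : Big G t K0.card :=
      { toCtx := hG
        big := ht
        max := fun K hK => hmax K (by rw [mem_filter]; exact ⟨mem_univ _, hK⟩)
        lower := clique_ineq_b hG.toHyp hK0.2 h2 }
    exact good_of_tight hB (tight hB) hxy hx hy

end Q109.Tough
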