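import Pool.Agent.Q109.Tough.Defs
import Pool.Agent.H255R3.STC.Chordal

/-! Simplicial vertices with a twin or a dominating non-neighbour in chordal graphs. -/

set_option autoImplicit false
set_option linter.unusedSectionVars false

namespace Q109.Tough

open Finset

variable {V : Type} [Fintype V] [DecidableEq V] {H : SimpleGraph V}

/-- simplicial vertices -/
def Simp (H : SimpleGraph V) (x : V) : Prop :=
  ∀ a b, H.Adj x a → H.Adj x b → a ≠ b → H.Adj a b

/-- reachable from `w` outside the closed neighbourhood of `z` -/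
def RT (H : SimpleGraph V) (z w a : V) : Prop :=
  Relation.ReflTransGen (fun a b => H.Adj a b ∧ b ≠ z ∧ ¬ H.Adj z b) w a

lemma RT.out {z w a : V} (hwz : w ≠ z) (hzw : ¬ H.Adj z w) (h : RT H z w a) :
    a ≠ z ∧ ¬ H.Adj z a := by
  rcases Relation.ReflTransGen.cases_tail h with h1 | ⟨c, _, hc⟩
  · rw [h1]; exact ⟨hwz, hzw⟩
  · exact hc.2

lemma RT.step {z w a b : V} (h : RT H z w a) (hab : H.Adj a b) (h1 : b ≠ z) (h2 : ¬ H.Adj z b) :
    RT H z w b := Relation.ReflTransGen.tail h ⟨hab, h1, h2⟩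

/-- the neighbourhood of a component of `H - N[z]` is a clique -/
lemma nbd_clique (hH : IsChordal H) {z w : V} (hwz : w ≠ z) (hzw : ¬ H.Adj z w) {x y : V}
    (hzx : H.Adj z x) (hx : ∃ a, RT H z w a ∧ H.Adj x a) (hzy : H.Adj z y)
    (hy : ∃ a, RT H z w a ∧ H.Adj y a) (hxy : x ≠ y) : H.Adj x y := by
  obtain ⟨h1, hh1, hx1⟩ := hx
  obtain ⟨h2, hh2, hy2⟩ := hy
  have hHR : ∀ h, RT H z w h →
      Relation.ReflTransGen (fun a b => H.Adj a b ∧ RT H z w a ∧ RT H z w b) w h := by
    intro h hh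
    induction hh with
    | refl => exact Relation.ReflTransGen.refl
    | @tail b c hb hbc ih2 =>
      exact Relation.ReflTransGen.tail ih2 ⟨hbc.1, hb, Relation.ReflTransGen.tail hb hbc⟩
  have hsymm : ∀ a b, Relation.ReflTransGen (fun a b => H.Adj a b ∧ RT H z w a ∧ RT H z w b) a b →
      Relation.ReflTransGen (fun a b => H.Adj a b ∧ RT H z w a ∧ RT H z w b) b a := by
    intro a b h
    induction h with
    | refl => exact Relation.ReflTransGen.refl
    | @tail b c _ hbc ih2 =>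
      exact Relation.ReflTransGen.head ⟨hbc.1.symm, hbc.2.2, hbc.2.1⟩ ih2
  apply Pool.Agent.H255R3.STC.clique_sep hH (H := RT H z w) (fun h hh => hh.out hwz hzw)
    hzx hzy hxy
  have hr : Relation.ReflTransGen (fun a b => H.Adj a b ∧ RT H z w a ∧ RT H z w b) h1 h2 :=
    (hsymm _ _ (hHR h1 hh1)).trans (hHR h2 hh2)
  obtain ⟨k, q, h0, hk, hadj, hHq⟩ := Pool.Agent.H255R3.STC.path_of_rtg hr hh1
  refine ⟨k + 2, fun m => if m = 0 then x else if m ≤ k + 1 then q (m - 1) else y,
    ?_, ?_, ?_, ?_⟩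
  · simp
  · simp
  · intro i hi
    rcases Nat.eq_zero_or_pos i with hi0 | hi0
    · subst hi0
      simp [h0, hx1]
    · have hi1 : i ≠ 0 := by omega
      have hi2 : i + 1 ≠ 0 := by omega
      have hi3 : i ≤ k + 1 := by omega
      simp only [hi1, hi2, hi3, if_false, if_true]
      by_cases hi4 : i + 1 ≤ k + 1
      · simp only [hi4, if_true]
        have := hadj (i - 1) (by omega)
        rw [show i - 1 + 1 = i + 1 - 1 by omega] at this
        exact this
      · simp only [hi4, if_false]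
        have : i - 1 = k := by omega
        rw [this, hk]
        exact hy2.symm
  · intro i hi hi'
    have hi1 : i ≠ 0 := by omega
    have hi3 : i ≤ k + 1 := by omega
    simp only [hi1, hi3, if_false, if_true]
    exact hHq _ (by omega)

/-- a simplicial vertex away from `c` which has a twin or whose neighbourhood is contained in the
neighbourhood of a non-adjacent vertex -/
lemma moplex_aux (hH : IsChordal H) (c : V) : ∀ (n : ℕ) (z w : V), w ≠ z → ¬ H.Adj z w →
    (∀ a, RT H z w a → a ≠ c ∧ ¬ H.Adj c a) →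
    (Set.ncard {a | RT H z w a}) ≤ n →
    ∃ x, x ≠ c ∧ ¬ H.Adj c x ∧ Simp H x ∧
      ((∃ x', x' ≠ x ∧ H.Adj x x' ∧ ∀ v, v ≠ x → v ≠ x' → (H.Adj x v ↔ H.Adj x' v)) ∨
        (∃ z, z ≠ x ∧ ¬ H.Adj x z ∧ ∀ v, H.Adj x v → H.Adj z v)) := by
  classical
  intro n
  induction n with
  | zero =>
    intro z w hwz hzw hc hcard
    exfalso
    have h1 : w ∈ {a | RT H z w a} := Relation.ReflTransGen.refl
    have h2 : 0 < Set.ncard {a | RT H z w a} := (Set.ncard_pos (Set.toFinite _)).2 ⟨w, h1⟩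
    omega
  | succ n ih =>
    intro z w hwz hzw hc hcard
    have hD : ∀ a, RT H z w a → a ≠ z ∧ ¬ H.Adj z a := fun a ha => ha.out hwz hzw
    -- neighbours of the component are adjacent to z
    have hN : ∀ a s, RT H z w a → H.Adj a s → ¬ RT H z w s → H.Adj z s := by
      intro a s ha has hs
      by_contra hzs
      apply hs
      refine ha.step has ?_ hzs
      rintro rfl
      exact (hD a ha).2 has.symm
    have hNc : ∀ s s', (∃ a, RT H z w a ∧ H.Adj a s) → ¬ RT H z w s →
        (∃ a, RT H z w a ∧ H.Adj a s') → ¬ RT H z w s' → s ≠ s' → H.Adj s s' := by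
      rintro s s' ⟨a, ha, has⟩ hs ⟨b, hb, hbs⟩ hs' hne
      exact nbd_clique hH hwz hzw (hN a s ha has hs) ⟨a, ha, has.symm⟩ (hN b s' hb hbs hs')
        ⟨b, hb, hbs.symm⟩ hne
    -- shrinking
    have hshrink : ∀ h w2, RT H z w w2 → w2 ≠ h → ¬ H.Adj h w2 →
        (∀ a b, RT H z w a → H.Adj a b → b ≠ h → ¬ H.Adj h b → RT H z w b) →
        (∃ a0, RT H z w a0 ∧ (a0 = h ∨ H.Adj h a0)) →
        ∃ x, x ≠ c ∧ ¬ H.Adj c x ∧ Simp H x ∧
      ((∃ x', x' ≠ x ∧ H.Adj x x' ∧ ∀ v, v ≠ x → v ≠ x' → (H.Adj x v ↔ H.Adj x' v)) ∨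
        (∃ z, z ≠ x ∧ ¬ H.Adj x z ∧ ∀ v, H.Adj x v → H.Adj z v)) := by
      rintro h w2 hw2 hw2h hhw2 hcl ⟨a0, ha0, ha0h⟩
      have hsub : ∀ a, RT H h w2 a → RT H z w a := by
        intro a ha
        induction ha with
        | refl => exact hw2
        | @tail b d _ hbd ih2 => exact hcl b d ih2 hbd.1 hbd.2.1 hbd.2.2
      apply ih h w2 hw2h hhw2 (fun a ha => hc a (hsub a ha))
      have hlt : Set.ncard {a | RT H h w2 a} < Set.ncard {a | RT H z w a} := by
        apply Set.ncard_lt_ncard _ (Set.toFinite _)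
        refine ⟨fun a ha => hsub a ha, ?_⟩
        intro hcon
        have h1 : RT H h w2 a0 := hcon ha0
        have h2 := h1.out hw2h hhw2
        rcases ha0h with h3 | h3
        · exact h2.1 h3
        · exact h2.2 h3
      omega
    by_cases c1 : ∃ h, (∃ a, RT H z w a ∧ H.Adj a h) ∧ ¬ RT H z w h ∧
        ∃ w2, RT H z w w2 ∧ ¬ H.Adj h w2
    · obtain ⟨h, ⟨a0, ha0, ha0h⟩, hh, w2, hw2, hhw2⟩ := c1
      refine hshrink h w2 hw2 (by rintro rfl; exact hh hw2) hhw2 ?_ ⟨a0, ha0, Or.inr ha0h.symm⟩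
      intro a b ha hab hbh hhb
      by_contra hb
      exact hhb (hNc h b ⟨a0, ha0, ha0h⟩ hh ⟨a, ha, hab⟩ hb hbh.symm)
    · push Not at c1
      by_cases c2 : ∃ h w2, RT H z w h ∧ RT H z w w2 ∧ w2 ≠ h ∧ ¬ H.Adj h w2
      · obtain ⟨h, w2, hh, hw2, hne, hhw2⟩ := c2
        refine hshrink h w2 hw2 hne hhw2 ?_ ⟨h, hh, Or.inl rfl⟩
        intro a b ha hab hbh hhb
        by_contra hb
        exact hhb (c1 b ⟨a, ha, hab⟩ hb h hh).symm
      · push Not at c2
        have hw : RT H z w w := Relation.ReflTransGen.refl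
        refine ⟨w, (hc w hw).1, (hc w hw).2, ?_, ?_⟩
        · intro a b hwa hwb hab
          by_cases ha : RT H z w a
          · by_cases hb : RT H z w b
            · exact c2 a b ha hb hab.symm
            · exact (c1 b ⟨w, hw, hwb⟩ hb a ha).symm
          · by_cases hb : RT H z w b
            · exact c1 a ⟨w, hw, hwa⟩ ha b hb
            · exact hNc a b ⟨w, hw, hwa⟩ ha ⟨w, hw, hwb⟩ hb hab
        · by_cases c3 : ∃ x', RT H z w x' ∧ x' ≠ w
          · left
            obtain ⟨x', hx', hne⟩ := c3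
            refine ⟨x', hne, c2 w x' hw hx' hne, ?_⟩
            intro v hvw hvx
            constructor
            · intro h
              by_cases hv : RT H z w v
              · exact c2 x' v hx' hv hvx
              · exact (c1 v ⟨w, hw, h⟩ hv x' hx').symm
            · intro h
              by_cases hv : RT H z w v
              · exact c2 w v hw hv hvw
              · exact (c1 v ⟨x', hx', h⟩ hv w hw).symm
          · right
            push Not at c3
            refine ⟨z, hwz.symm, fun h => hzw h.symm, ?_⟩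
            intro v hv
            apply hN w v hw hv
            intro hv2
            exact hv.ne (c3 v hv2).symm

theorem moplex (hH : IsChordal H) (c w : V) (hw : w ≠ c) (hcw : ¬ H.Adj c w) :
    ∃ x, x ≠ c ∧ ¬ H.Adj c x ∧ Simp H x ∧
      ((∃ x', x' ≠ x ∧ H.Adj x x' ∧ ∀ v, v ≠ x → v ≠ x' → (H.Adj x v ↔ H.Adj x' v)) ∨
        (∃ z, z ≠ x ∧ ¬ H.Adj x z ∧ ∀ v, H.Adj x v → H.Adj z v)) :=
  moplex_aux hH c _ c w hw hcw (fun a ha => ha.out hw hcw) le_rfl

end Q109.Tough
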