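import Pool.Agent.Q109.Tough.Comps
import Pool.Agent.Q109.Tough.Moplex

/-! Inequalities for minimally tough graphs in terms of the complement. -/

set_option autoImplicit false
set_option linter.unusedSectionVars false

namespace Q109.Tough

open Finset

variable {V : Type} [Fintype V] [DecidableEq V]

/-- minimal toughness with toughness `t`, as inequalities -/
structure Hyp (G : SimpleGraph V) (t : ℝ) : Prop where
  pos : 0 < t
  tough : ∀ S : Finset V, 2 ≤ comps G S → t * comps G S ≤ S.card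
  crit : ∀ x y, G.Adj x y → ∃ S : Finset V, 2 ≤ comps (G.deleteEdges {s(x, y)}) S ∧
    (S.card : ℝ) < t * comps (G.deleteEdges {s(x, y)}) S

open Classical in
/-- common neighbours -/
noncomputable def Cs (H : SimpleGraph V) (x y : V) : Finset V :=
  univ.filter (fun v => H.Adj x v ∧ H.Adj y v)

open Classical in
/-- neighbours of `y`, not of `x` -/
noncomputable def Ps (H : SimpleGraph V) (x y : V) : Finset V :=
  univ.filter (fun v => v ≠ x ∧ ¬ H.Adj x v ∧ H.Adj y v)

open Classical in
/-- neither neighbours of `x` nor of `y` -/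
noncomputable def Ms (H : SimpleGraph V) (x y : V) : Finset V :=
  univ.filter (fun v => v ≠ x ∧ v ≠ y ∧ ¬ H.Adj x v ∧ ¬ H.Adj y v)

lemma mem_Cs {H : SimpleGraph V} {x y v : V} : v ∈ Cs H x y ↔ H.Adj x v ∧ H.Adj y v := by
  classical
  simp [Cs]

lemma mem_Ps {H : SimpleGraph V} {x y v : V} :
    v ∈ Ps H x y ↔ v ≠ x ∧ ¬ H.Adj x v ∧ H.Adj y v := by
  classical
  simp [Ps]

lemma mem_Ms {H : SimpleGraph V} {x y v : V} :
    v ∈ Ms H x y ↔ v ≠ x ∧ v ≠ y ∧ ¬ H.Adj x v ∧ ¬ H.Adj y v := by
  classical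
  simp [Ms]

lemma card_split {H : SimpleGraph V} {x y : V} (hne : x ≠ y) (hxy : ¬ H.Adj x y) :
    Fintype.card V = 2 + (Cs H x y).card + (Ps H x y).card + (Ps H y x).card +
      (Ms H x y).card := by
  classical
  have h1 : ∀ v : V, (1 : ℕ) = (if v = x then 1 else 0) + (if v = y then 1 else 0) +
      (if v ∈ Cs H x y then 1 else 0) + (if v ∈ Ps H x y then 1 else 0) +
      (if v ∈ Ps H y x then 1 else 0) + (if v ∈ Ms H x y then 1 else 0) := by
    intro v
    simp only [mem_Cs, mem_Ps, mem_Ms]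
    by_cases hx : v = x
    · subst hx
      have h2 : ¬ H.Adj y v := fun h => hxy h.symm
      simp [hne, h2, hxy]
    · by_cases hy : v = y
      · subst hy
        simp [hx, hxy]
      · by_cases h1 : H.Adj x v <;> by_cases h2 : H.Adj y v <;> simp [hx, hy, h1, h2]
  have h2 : ∑ v : V, (1 : ℕ) = ∑ v : V, ((if v = x then 1 else 0) + (if v = y then 1 else 0) +
      (if v ∈ Cs H x y then 1 else 0) + (if v ∈ Ps H x y then 1 else 0) +
      (if v ∈ Ps H y x then 1 else 0) + (if v ∈ Ms H x y then 1 else 0)) :=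
    sum_congr rfl (fun v _ => h1 v)
  rw [sum_const, card_univ, smul_eq_mul, mul_one] at h2
  rw [h2]
  simp only [sum_add_distrib, sum_ite_eq', mem_univ, if_true, sum_ite_mem, univ_inter,
    sum_const, smul_eq_mul, mul_one]

/-- the critical set of an edge between two vertices simplicial in the complement -/
theorem pair_ineq {G : SimpleGraph V} {t : ℝ} (hG : Hyp G t) {x y : V} (hxy : G.Adj x y)
    (hx : Simp Gᶜ x) (hy : Simp Gᶜ y) :
    ∃ P0 Q0 : Finset V, P0 ⊆ Ps Gᶜ x y ∧ Q0 ⊆ Ps Gᶜ y x ∧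
      (∀ p ∈ Ps Gᶜ x y, p ∉ P0 → ∀ q ∈ Ps Gᶜ y x, q ∉ Q0 → Gᶜ.Adj p q) ∧
      ((Ms Gᶜ x y).card : ℝ) + P0.card + Q0.card < t * ((Cs Gᶜ x y).card + 2) := by
  classical
  obtain ⟨S, hS2, hS⟩ := hG.crit x y hxy
  set G' := G.deleteEdges {s(x, y)} with hG'
  have hadj : ∀ a b, G.Adj a b → s(a, b) ≠ s(x, y) → G'.Adj a b := by
    intro a b h1 h2
    rw [hG', SimpleGraph.deleteEdges_adj]
    exact ⟨h1, h2⟩
  -- x and y are outside S and not connected in G' - S
  have key : ¬ ∀ (hx : x ∉ S) (hy : y ∉ S),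
      (G'.induce {v : V | v ∉ S}).Reachable ⟨x, hx⟩ ⟨y, hy⟩ := by
    intro hcon
    have h1 := comps_delete_le G S x y hcon
    have h2 := hG.tough S (hS2.trans h1)
    have h3 : t * (comps G' S : ℝ) ≤ t * (comps G S : ℝ) :=
      mul_le_mul_of_nonneg_left (by exact_mod_cast h1) hG.pos.le
    linarith
  push Not at key
  obtain ⟨hxS, hyS, hnr⟩ := key
  have hne : x ≠ y := hxy.ne
  have hnadj : ∀ a b, a ≠ b → ¬ Gᶜ.Adj a b → G.Adj a b := by
    intro a b h1 h2
    by_contra h3
    exact h2 ((SimpleGraph.compl_adj _ _ _).2 ⟨h1, h3⟩)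
  have hc : ∀ a b, Gᶜ.Adj a b → ¬ G.Adj a b := fun a b h => ((SimpleGraph.compl_adj _ _ _).1 h).2
  have step : ∀ a b (ha : a ∉ S) (hb : b ∉ S), G'.Adj a b →
      (G'.induce {v : V | v ∉ S}).Reachable ⟨a, ha⟩ ⟨b, hb⟩ := by
    intro a b ha hb hab
    apply SimpleGraph.Adj.reachable
    exact hab
  have hPx : ∀ p, p ∈ Ps Gᶜ x y → G'.Adj x p := by
    intro p hp
    rw [mem_Ps] at hp
    apply hadj x p (hnadj x p hp.1.symm hp.2.1)
    intro h
    rw [Sym2.eq_iff] at h
    rcases h with ⟨_, h⟩ | ⟨h, _⟩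
    · rw [h] at hp; exact Gᶜ.loopless.irrefl _ hp.2.2
    · exact hne h
  have hQy : ∀ q, q ∈ Ps Gᶜ y x → G'.Adj y q := by
    intro q hq
    rw [mem_Ps] at hq
    apply hadj y q (hnadj y q hq.1.symm hq.2.1)
    intro h
    rw [Sym2.eq_iff] at h
    rcases h with ⟨h, _⟩ | ⟨_, h⟩
    · exact hne h.symm
    · rw [h] at hq; exact Gᶜ.loopless.irrefl _ hq.2.2
  have hMS : ∀ m, m ∈ Ms Gᶜ x y → m ∈ S := by
    intro m hm
    rw [mem_Ms] at hm
    by_contra hmS
    apply hnr
    have h1 : G'.Adj x m := by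
      apply hadj x m (hnadj x m hm.1.symm hm.2.2.1)
      intro h
      rw [Sym2.eq_iff] at h
      rcases h with ⟨_, h⟩ | ⟨h, _⟩
      · exact hm.2.1 h
      · exact hne h
    have h2 : G'.Adj m y := by
      apply hadj m y (hnadj m y hm.2.1 (fun h => hm.2.2.2 h.symm))
      intro h
      rw [Sym2.eq_iff] at h
      rcases h with ⟨h, _⟩ | ⟨h, _⟩
      · exact hm.1 h
      · exact hm.2.1 h
    exact (step x m hxS hmS h1).trans (step m y hmS hyS h2)
  refine ⟨(Ps Gᶜ x y).filter (fun v => v ∈ S), (Ps Gᶜ y x).filter (fun v => v ∈ S),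
    filter_subset _ _, filter_subset _ _, ?_, ?_⟩
  · intro p hp hpS q hq hqS
    have hp' : p ∉ S := fun h => hpS (mem_filter.2 ⟨hp, h⟩)
    have hq' : q ∉ S := fun h => hqS (mem_filter.2 ⟨hq, h⟩)
    by_contra hpq
    have hp1 := mem_Ps.1 hp
    have hq1 := mem_Ps.1 hq
    have hpq' : p ≠ q := by
      rintro rfl
      exact hp1.2.1 hq1.2.2
    apply hnr
    have h1 : G'.Adj p q := by
      apply hadj p q (hnadj p q hpq' hpq)
      intro h
      rw [Sym2.eq_iff] at h
      rcases h with ⟨h, _⟩ | ⟨_, h⟩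
      · exact hp1.1 h
      · rw [h] at hq1; exact Gᶜ.loopless.irrefl _ hq1.2.2
    exact ((step x p hxS hp' (hPx p hp)).trans (step p q hp' hq' h1)).trans
      (step q y hq' hyS (hQy q hq).symm)
  · -- the number of components
    have hub : comps G' S ≤ ((Cs Gᶜ x y).filter (fun v => v ∉ S) ∪ {x, y}).card := by
      apply comps_le
      intro v hv
      by_cases hvx : v = x
      · subst hvx
        exact ⟨v, by simp, hv, SimpleGraph.Reachable.rfl⟩
      by_cases hvy : v = y
      · subst hvy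
        exact ⟨v, by simp, hv, SimpleGraph.Reachable.rfl⟩
      by_cases h1 : Gᶜ.Adj x v
      · by_cases h2 : Gᶜ.Adj y v
        · refine ⟨v, ?_, hv, SimpleGraph.Reachable.rfl⟩
          rw [mem_union, mem_filter, mem_Cs]
          exact Or.inl ⟨⟨h1, h2⟩, hv⟩
        · refine ⟨y, by simp, hyS, ?_⟩
          exact step y v hyS hv (hQy v (mem_Ps.2 ⟨hvy, h2, h1⟩))
      · by_cases h2 : Gᶜ.Adj y v
        · refine ⟨x, by simp, hxS, ?_⟩
          exact step x v hxS hv (hPx v (mem_Ps.2 ⟨hvx, h1, h2⟩))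
        · exact absurd (hMS v (mem_Ms.2 ⟨hvx, hvy, h1, h2⟩)) hv
    have hub2 : comps G' S ≤ (Cs Gᶜ x y).card + 2 := by
      refine hub.trans ((card_union_le _ _).trans ?_)
      have a1 := card_filter_le (Cs Gᶜ x y) (fun v => v ∉ S)
      have a2 : ({x, y} : Finset V).card ≤ 2 := card_le_two
      omega
    have hsub : Ms Gᶜ x y ∪ ((Ps Gᶜ x y).filter (fun v => v ∈ S) ∪
        (Ps Gᶜ y x).filter (fun v => v ∈ S)) ⊆ S := by
      intro v hv
      rw [mem_union, mem_union, mem_filter, mem_filter] at hv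
      rcases hv with h | h | h
      · exact hMS v h
      · exact h.2
      · exact h.2
    have hd1 : Disjoint ((Ps Gᶜ x y).filter (fun v => v ∈ S))
        ((Ps Gᶜ y x).filter (fun v => v ∈ S)) := by
      rw [disjoint_left]
      intro v hv hv'
      rw [mem_filter, mem_Ps] at hv hv'
      exact hv.1.2.1 hv'.1.2.2
    have hd2 : Disjoint (Ms Gᶜ x y) ((Ps Gᶜ x y).filter (fun v => v ∈ S) ∪
        (Ps Gᶜ y x).filter (fun v => v ∈ S)) := by
      rw [disjoint_left]
      intro v hv hv'
      rw [mem_union, mem_filter, mem_filter, mem_Ps, mem_Ps] at hv'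
      rw [mem_Ms] at hv
      rcases hv' with h | h
      · exact hv.2.2.2 h.1.2.2
      · exact hv.2.2.1 h.1.2.2
    have hcard := card_le_card hsub
    rw [card_union_of_disjoint hd2, card_union_of_disjoint hd1] at hcard
    have h1 : ((Ms Gᶜ x y).card : ℝ) + ((Ps Gᶜ x y).filter (fun v => v ∈ S)).card +
        ((Ps Gᶜ y x).filter (fun v => v ∈ S)).card ≤ S.card := by
      have : (((Ms Gᶜ x y).card + (((Ps Gᶜ x y).filter (fun v => v ∈ S)).card +
        ((Ps Gᶜ y x).filter (fun v => v ∈ S)).card) : ℕ) : ℝ) ≤ S.card := by exact_mod_cast hcard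
      push_cast at this
      linarith
    have h2 : t * (comps G' S : ℝ) ≤ t * ((Cs Gᶜ x y).card + 2) := by
      apply mul_le_mul_of_nonneg_left _ hG.pos.le
      exact_mod_cast hub2
    linarith

/-- toughness and cliques of the complement, first form -/
theorem clique_ineq_b {G : SimpleGraph V} {t : ℝ} (hG : Hyp G t) {K : Finset V}
    (hK : ∀ a ∈ K, ∀ b ∈ K, a ≠ b → Gᶜ.Adj a b) (h2 : 2 ≤ K.card) :
    (t + 1) * K.card ≤ Fintype.card V := by
  classical
  have h1 : K.card ≤ comps G (univ \ K) := by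
    apply le_comps G (univ \ K) (fun v => v)
    · intro u v hu hv huv
      rw [mem_sdiff, not_and, not_not] at hu hv
      exfalso
      have := hK u (hu (mem_univ u)) v (hv (mem_univ v)) huv.ne
      exact ((SimpleGraph.compl_adj _ _ _).1 this).2 huv
    · intro v hv h
      rw [mem_sdiff] at h
      exact h.2 hv
    · intro a _ b _ h; exact h
  have h3 := hG.tough (univ \ K) (h2.trans h1)
  have h4 : (univ \ K).card = Fintype.card V - K.card := by
    rw [card_sdiff_of_subset (subset_univ K), card_univ]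
  have h5 : K.card ≤ Fintype.card V := card_le_univ K
  rw [h4, Nat.cast_sub h5] at h3
  have h6 : t * (K.card : ℝ) ≤ t * (comps G (univ \ K) : ℝ) :=
    mul_le_mul_of_nonneg_left (by exact_mod_cast h1) hG.pos.le
  linarith

/-- toughness and cliques of the complement, second form -/
theorem clique_ineq_a {G : SimpleGraph V} {t : ℝ} (hG : Hyp G t) {K R : Finset V}
    (hK : ∀ a ∈ K, ∀ b ∈ K, a ≠ b → Gᶜ.Adj a b) (hKne : K.Nonempty) (hRne : R.Nonempty)
    (hR : ∀ r ∈ R, ∀ k ∈ K, Gᶜ.Adj k r) :
    t * (K.card + 1) + K.card + R.card ≤ Fintype.card V := by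
  classical
  set R' : Finset V := univ.filter (fun v => ∀ k ∈ K, Gᶜ.Adj k v) with hR'
  have hsub : R ⊆ R' := by
    intro r hr
    rw [hR', mem_filter]
    exact ⟨mem_univ _, hR r hr⟩
  have hdisj : Disjoint K R' := by
    rw [disjoint_left]
    intro v hv hv'
    rw [hR', mem_filter] at hv'
    exact Gᶜ.loopless.irrefl _ (hv'.2 v hv)
  obtain ⟨r, hr⟩ := hRne
  have hrR' := hsub hr
  have hrK : r ∉ K := fun h => (disjoint_left.1 hdisj h) hrR'
  set S : Finset V := univ \ (K ∪ R') with hS
  have hmem : ∀ v, v ∉ S → v ∈ K ∨ v ∈ R' := by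
    intro v hv
    rw [hS, mem_sdiff, not_and, not_not] at hv
    exact mem_union.1 (hv (mem_univ v))
  have h1 : (insert r K).card ≤ comps G S := by
    apply le_comps G S (fun v => if v ∈ K then some v else none)
    · intro u v hu hv huv
      by_cases huK : u ∈ K
      · exfalso
        have h : Gᶜ.Adj u v := by
          rcases hmem v hv with h1 | h1
          · exact hK u huK v h1 huv.ne
          · rw [hR', mem_filter] at h1
            exact h1.2 u huK
        exact ((SimpleGraph.compl_adj _ _ _).1 h).2 huv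
      · by_cases hvK : v ∈ K
        · exfalso
          have h : Gᶜ.Adj v u := by
            rcases hmem u hu with h1 | h1
            · exact absurd h1 huK
            · rw [hR', mem_filter] at h1
              exact h1.2 v hvK
          exact ((SimpleGraph.compl_adj _ _ _).1 h).2 huv.symm
        · simp only [huK, hvK, if_false]
    · intro v hv h
      rw [hS, mem_sdiff] at h
      apply h.2
      rw [mem_insert] at hv
      rcases hv with rfl | hv
      · exact mem_union_right _ hrR'
      · exact mem_union_left _ hv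
    · intro a ha b hb hab
      rw [mem_coe, mem_insert] at ha hb
      rcases ha with rfl | ha <;> rcases hb with rfl | hb
      · rfl
      · simp only [hrK, hb, if_false, if_true] at hab
        exact absurd hab (by simp)
      · simp only [hrK, ha, if_false, if_true] at hab
        exact absurd hab (by simp)
      · simp only [ha, hb, if_true, Option.some.injEq] at hab
        exact hab
  rw [card_insert_of_notMem hrK] at h1
  have hKpos : 1 ≤ K.card := hKne.card_pos
  have h3 := hG.tough S (by omega)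
  have h4 : S.card = Fintype.card V - (K.card + R'.card) := by
    rw [hS, card_sdiff_of_subset (subset_univ _), card_univ, card_union_of_disjoint hdisj]
  have h5 : K.card + R'.card ≤ Fintype.card V := by
    rw [← card_union_of_disjoint hdisj]; exact card_le_univ _
  rw [h4, Nat.cast_sub h5] at h3
  push_cast at h3
  have h6 : t * ((K.card : ℝ) + 1) ≤ t * (comps G S : ℝ) :=
    mul_le_mul_of_nonneg_left (by exact_mod_cast h1) hG.pos.le
  have h7 : (R.card : ℝ) ≤ R'.card := by exact_mod_cast card_le_card hsub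
  linarith

end Q109.Tough
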