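import Pool.Agent.Q109.Tough.TGraph

/-! The classification and the maximum toughness. -/

set_option autoImplicit false

namespace Q109.Tough

open scoped ENNReal

theorem classification (V : Type) [Fintype V] (G : SimpleGraph V) (hch : IsChordal Gᶜ)
    (hd : CoDiamTwo G) : NontrivMinTough G ↔ ∃ l : ℕ, 1 ≤ l ∧ Nonempty (G ≃g T l) := by
  classical
  constructor
  · intro hG
    exact forward hG hch hd
  · rintro ⟨l, hl, ⟨e⟩⟩
    exact nontriv_iso e (T_nontriv l hl)

lemma nontriv_of (V : Type) [Fintype V] (G : SimpleGraph V) (hd : CoDiamTwo G)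
    (hG : MinTough G) : NontrivMinTough G := by
  have hnt : Nontrivial V := SimpleGraph.nontrivial_of_diam_ne_zero (G := Gᶜ)
    (by rw [hd.2]; norm_num)
  refine ⟨hG, ?_, ?_⟩
  · rintro rfl
    have h := hd.2
    rw [compl_top, SimpleGraph.diam_bot] at h
    omega
  · rintro rfl
    have h := hd.2
    rw [compl_bot, SimpleGraph.diam_top] at h
    omega

lemma half_le {l : ℕ} (hl : 1 ≤ l) : 1 / ((l + 1 : ℕ) : ℝ≥0∞) ≤ 1 / 2 := by
  apply ENNReal.div_le_div_left
  exact_mod_cast (by omega : 2 ≤ l + 1)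

lemma eq_one_of {l : ℕ} (h : 1 / ((l + 1 : ℕ) : ℝ≥0∞) = 1 / 2) : l = 1 := by
  rw [one_div, one_div, inv_inj] at h
  have h2 : l + 1 = 2 := by exact_mod_cast h
  omega

/-- the maximum toughness is one half, attained exactly by the net -/
theorem max_toughness :
    IsGreatest {x : ℝ≥0∞ | ∃ (V : Type) (_ : Fintype V) (G : SimpleGraph V),
      IsChordal Gᶜ ∧ CoDiamTwo G ∧ MinTough G ∧ toughness G = x} (1 / 2) ∧
    ∀ (V : Type) [Fintype V] (G : SimpleGraph V), IsChordal Gᶜ → CoDiamTwo G → MinTough G →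
      (toughness G = 1 / 2 ↔ Nonempty (G ≃g T 1)) := by
  classical
  refine ⟨⟨?_, ?_⟩, ?_⟩
  · refine ⟨Fin 3 × Option (Fin 1), inferInstance, T 1, T_chordal 1, T_coDiam 1 le_rfl,
      T_minTough 1 le_rfl, ?_⟩
    rw [T_toughness 1 le_rfl]
    norm_num
  · rintro x ⟨V, hV, G, h1, h2, h3, rfl⟩
    obtain ⟨l, hl, ⟨e⟩⟩ := (classification V G h1 h2).1 (nontriv_of V G h2 h3)
    rw [toughness_iso e, T_toughness l hl]
    exact half_le hl
  · intro V _ G h1 h2 h3
    constructor
    · intro h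
      obtain ⟨l, hl, ⟨e⟩⟩ := (classification V G h1 h2).1 (nontriv_of V G h2 h3)
      rw [toughness_iso e, T_toughness l hl] at h
      have hl1 := eq_one_of h
      subst hl1
      exact ⟨e⟩
    · rintro ⟨e⟩
      rw [toughness_iso e, T_toughness 1 le_rfl]
      norm_num

end Q109.Tough
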