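import Pool.Agent.Q109.Tough.Split

/-! The case `t ≤ 1`: the graph is one of the graphs `T l`. -/

set_option autoImplicit false
set_option linter.unusedSectionVars false

namespace Q109.Tough

open Finset

variable {V : Type} [Fintype V] [DecidableEq V] {G : SimpleGraph V} {t : ℝ}

/-- every common non-neighbour has a neighbour among the common neighbours (in the complement) -/
lemma M_adj (hG : Ctx G t) [Nonempty V] {y y' m : V} (hy : y ∈ Yset Gᶜ) (hy' : y' ∈ Yset Gᶜ)
    (hne : y ≠ y') (hm : m ∈ Ms Gᶜ y y') : ∃ c ∈ Cs Gᶜ y y', ¬ Gᶜ.Adj c m := by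
  by_contra hcon
  push Not at hcon
  have hxy := Y_adj hG hy hy' hne
  have sy := Y_simp hG (mem_Y.1 hy)
  have sy' := Y_simp hG (mem_Y.1 hy')
  have h1 := M_ge hG hxy sy sy' {m} (by simpa using hm)
    (by
      intro z hz c hc
      rw [mem_singleton] at hz
      rw [hz]
      exact hcon c hc)
  obtain ⟨P0, Q0, _, _, _, h⟩ := pair_ineq hG.toHyp hxy sy sy'
  rw [card_singleton] at h1
  have h3 : (0 : ℝ) ≤ P0.card := Nat.cast_nonneg _
  have h4 : (0 : ℝ) ≤ Q0.card := Nat.cast_nonneg _
  have ht := not_big hG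
  push_cast at h1
  nlinarith

lemma es_disjoint (hG : Ctx G t) [Nonempty V] {y y' : V} (hy : y ∈ Yset Gᶜ) (hy' : y' ∈ Yset Gᶜ)
    (hne : y ≠ y') : Disjoint (es G y) (es G y') := by
  rw [disjoint_left]
  intro m hm hm'
  have hM : m ∈ Ms Gᶜ y y' := by
    rw [Ms_eq hG hy hy']
    exact mem_union_right _ (mem_inter.2 ⟨hm, hm'⟩)
  obtain ⟨c, hc, hcm⟩ := M_adj hG hy hy' hne hM
  have hcI : c ∈ Iset Gᶜ := by
    rw [Cs_eq hG hy hy', mem_sdiff] at hc
    exact hc.1
  apply hcm
  apply I_clique hG c hcI m (es_sub y hm)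
  rintro rfl
  exact cadj (mem_es.1 hm).2 (mem_Cs.1 hc).1

lemma Y_three (hG : Ctx G t) [Nonempty V] : 3 ≤ (Yset Gᶜ).card := by
  obtain ⟨y, hy⟩ := Y_nonempty hG
  obtain ⟨y', hy', hne⟩ := exists_other hG hy
  have h1 := M_ge hG (Y_adj hG hy hy' hne.symm) (Y_simp hG (mem_Y.1 hy)) (Y_simp hG (mem_Y.1 hy'))
    ∅ (empty_subset _) (by simp)
  have h2 := card_Ms_eq hG hy hy' hne.symm
  have h3 : (es G y ∩ es G y').card = 0 := by
    rw [card_eq_zero]
    exact disjoint_iff_inter_eq_empty.1 (es_disjoint hG hy hy' hne.symm)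
  have h4 : 0 < (Ms Gᶜ y y').card := by
    by_contra hcon
    have h5 : (Ms Gᶜ y y').card = 0 := by omega
    rw [h5, card_empty] at h1
    have := hG.pos
    have h6 : (0 : ℝ) ≤ (Cs Gᶜ y y').card := Nat.cast_nonneg _
    push_cast at h1
    nlinarith
  omega

lemma es_nonempty (hG : Ctx G t) [Nonempty V] {k : V} (hk : k ∈ Yset Gᶜ) : 1 ≤ (es G k).card := by
  have h3 := Y_three hG
  have h1 : 1 < ((Yset Gᶜ).erase k).card := by
    rw [card_erase_of_mem hk]; omega
  obtain ⟨y, hy, y', hy', hne⟩ := one_lt_card.1 h1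
  rw [mem_erase] at hy hy'
  have hM : k ∈ Ms Gᶜ y y' := by
    rw [Ms_eq hG hy.2 hy'.2, mem_union, mem_erase, mem_erase]
    exact Or.inl ⟨hy'.1.symm, hy.1.symm, hk⟩
  obtain ⟨c, hc, hck⟩ := M_adj hG hy.2 hy'.2 hne hM
  rw [Cs_eq hG hy.2 hy'.2, mem_sdiff] at hc
  apply card_pos.2
  refine ⟨c, mem_es.2 ⟨hc.1, ?_⟩⟩
  apply adj_of
  · rintro rfl
    exact mem_Y.1 hk hc.1
  · exact fun h => hck h.symm

lemma es_upper (hG : Ctx G t) [Nonempty V] {y : V} (hy : y ∈ Yset Gᶜ) :
    t * ((es G y).card + 1) ≤ 1 := by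
  classical
  have h3 := Y_three hG
  have hyI := mem_Y.1 hy
  have hne : (es G y).Nonempty := card_pos.1 (es_nonempty hG hy)
  have hyn : y ∉ es G y := fun h => hyI (es_sub y h)
  obtain ⟨y', hy', hne'⟩ := exists_other hG hy
  have h1 := clique_ineq_a hG.toHyp (K := es G y) (R := univ \ insert y (es G y))
    (fun a ha b hb hab => I_clique hG a (es_sub y ha) b (es_sub y hb) hab) hne
    ⟨y', by
      rw [mem_sdiff, mem_insert]
      refine ⟨mem_univ _, ?_⟩
      rintro (h | h)
      · exact hne' h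
      · exact mem_Y.1 hy' (es_sub y h)⟩
    (by
      intro r hr c hc
      rw [mem_sdiff, mem_insert] at hr
      have hr1 : r ≠ y := fun h => hr.2 (Or.inl h)
      have hr2 : r ∉ es G y := fun h => hr.2 (Or.inr h)
      have hcr : c ≠ r := by rintro rfl; exact hr2 hc
      by_cases hrI : r ∈ Iset Gᶜ
      · exact I_clique hG c (es_sub y hc) r hrI hcr
      · by_contra hcon
        have h2 : G.Adj r c := (adj_of hcr hcon).symm
        have h3 : c ∈ es G r := mem_es.2 ⟨es_sub y hc, h2⟩
        exact disjoint_left.1 (es_disjoint hG (mem_Y.2 hrI) hy hr1) h3 hc)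
  rw [card_sdiff_of_subset (subset_univ _), card_univ, card_insert_of_notMem hyn] at h1
  have h4 : (es G y).card + 1 ≤ Fintype.card V := by
    rw [← card_insert_of_notMem hyn]; exact card_le_univ _
  rw [Nat.cast_sub h4] at h1
  push_cast at h1
  linarith

lemma card_I (hG : Ctx G t) [Nonempty V] : (Iset Gᶜ).card = ∑ y ∈ Yset Gᶜ, (es G y).card := by
  classical
  rw [← card_biUnion]
  · congr 1
    ext v
    rw [mem_biUnion]
    constructor
    · exact fun hv => exists_nbr hG hv
    · rintro ⟨y, _, h⟩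
      exact es_sub y h
  · intro y hy y' hy' hne
    exact es_disjoint hG hy hy' hne

lemma Y_eq_three (hG : Ctx G t) [Nonempty V] : (Yset Gᶜ).card = 3 := by
  classical
  have h3 := Y_three hG
  obtain ⟨y, hy⟩ := Y_nonempty hG
  obtain ⟨y', hy', hne⟩ := exists_other hG hy
  have hpair := pair_Y hG hy hy' hne.symm
  have hdis := es_disjoint hG hy hy' hne.symm
  rw [disjoint_iff_inter_eq_empty.1 hdis, card_empty, card_union_of_disjoint hdis] at hpair
  have hy'm : y' ∈ (Yset Gᶜ).erase y := mem_erase.2 ⟨hne, hy'⟩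
  have h1 : (Iset Gᶜ).card = (es G y).card + ((es G y').card +
      ∑ k ∈ ((Yset Gᶜ).erase y).erase y', (es G k).card) := by
    rw [card_I hG, ← add_sum_erase _ _ hy, ← add_sum_erase _ _ hy'm]
  have h2 : ∑ k ∈ ((Yset Gᶜ).erase y).erase y', (t * ((es G k).card + 1)) ≤
      ∑ k ∈ ((Yset Gᶜ).erase y).erase y', (1 : ℝ) := by
    apply sum_le_sum
    intro k hk
    exact es_upper hG (mem_of_mem_erase (mem_of_mem_erase hk))
  rw [← mul_sum, sum_add_distrib, sum_const, nsmul_eq_mul, mul_one,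
    card_erase_of_mem hy'm, card_erase_of_mem hy] at h2
  have h4 : (((Yset Gᶜ).card - 1 - 1 : ℕ) : ℝ) = (Yset Gᶜ).card - 2 := by
    rw [Nat.cast_sub (by omega), Nat.cast_sub (by omega)]; push_cast; ring
  rw [h4] at h2
  have h5 : ((Iset Gᶜ).card : ℝ) = (es G y).card + ((es G y').card +
      ∑ k ∈ ((Yset Gᶜ).erase y).erase y', ((es G k).card : ℝ)) := by
    rw [h1]; push_cast; ring
  rw [h5] at hpair
  push_cast at hpair
  have hp := hG.pos
  have h6 : t * ((Yset Gᶜ).card : ℝ) < t * 4 := by linarith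
  have h7 : ((Yset Gᶜ).card : ℝ) < 4 := lt_of_mul_lt_mul_left h6 hp.le
  have h8 : (Yset Gᶜ).card < 4 := by exact_mod_cast h7
  omega

lemma es_card_eq (hG : Ctx G t) [Nonempty V] {k k' : V} (hk : k ∈ Yset Gᶜ) (hk' : k' ∈ Yset Gᶜ) :
    (es G k).card ≤ (es G k').card := by
  classical
  have h3 := Y_eq_three hG
  -- the two vertices different from `k'`
  have h1 : 1 < ((Yset Gᶜ).erase k').card := by
    rw [card_erase_of_mem hk']; omega
  obtain ⟨y, hy, y', hy', hne⟩ := one_lt_card.1 h1
  rw [mem_erase] at hy hy'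
  have hpair := pair_Y hG hy.2 hy'.2 hne
  have hdis := es_disjoint hG hy.2 hy'.2 hne
  rw [disjoint_iff_inter_eq_empty.1 hdis, card_empty, card_union_of_disjoint hdis, h3] at hpair
  have hY : Yset Gᶜ = {y, y', k'} := by
    symm
    apply eq_of_subset_of_card_le
    · intro v hv
      rw [mem_insert, mem_insert, mem_singleton] at hv
      rcases hv with rfl | rfl | rfl
      · exact hy.2
      · exact hy'.2
      · exact hk'
    · rw [h3, card_eq_three.2 ⟨y, y', k', hne, hy.1, hy'.1, rfl⟩]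
  have h4 : (Iset Gᶜ).card = (es G y).card + (es G y').card + (es G k').card := by
    rw [card_I hG, hY, sum_insert (by
      rw [mem_insert, mem_singleton]
      rintro (h | h)
      · exact hne h
      · exact hy.1 h), sum_pair hy'.1]
    ring
  rw [h4] at hpair
  push_cast at hpair
  have hu := es_upper hG hk
  have hp := hG.pos
  have h5 : t * ((es G k).card : ℝ) < t * ((es G k').card + 1) := by linarith
  have h6 : ((es G k).card : ℝ) < (es G k').card + 1 := lt_of_mul_lt_mul_left h5 hp.le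
  have h7 : (es G k).card < (es G k').card + 1 := by exact_mod_cast h6
  omega

/-- the classification -/
theorem iso_T (hG : Ctx G t) [Nonempty V] : ∃ l : ℕ, 1 ≤ l ∧ Nonempty (G ≃g T l) := by
  classical
  obtain ⟨a, b, c, hab, hac, hbc, hY⟩ := card_eq_three.1 (Y_eq_three hG)
  have hmem : ∀ v, v ∈ Yset Gᶜ ↔ v = a ∨ v = b ∨ v = c := by
    intro v; rw [hY, mem_insert, mem_insert, mem_singleton]
  have ha : a ∈ Yset Gᶜ := (hmem a).2 (Or.inl rfl)
  have hb : b ∈ Yset Gᶜ := (hmem b).2 (Or.inr (Or.inl rfl))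
  have hc : c ∈ Yset Gᶜ := (hmem c).2 (Or.inr (Or.inr rfl))
  set ctr : Fin 3 → V := ![a, b, c] with hctr
  have hctrY : ∀ i, ctr i ∈ Yset Gᶜ := by
    intro i; fin_cases i
    · exact ha
    · exact hb
    · exact hc
  have hctrinj : Function.Injective ctr := by
    intro i j hij
    fin_cases i <;> fin_cases j <;> simp [hctr] at hij ⊢
    · exact hab hij
    · exact hac hij
    · exact hab hij.symm
    · exact hbc hij
    · exact hac hij.symm
    · exact hbc hij.symm
  have hctrsurj : ∀ v ∈ Yset Gᶜ, ∃ i, ctr i = v := by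
    intro v hv
    rcases (hmem v).1 hv with rfl | rfl | rfl
    · exact ⟨0, rfl⟩
    · exact ⟨1, rfl⟩
    · exact ⟨2, rfl⟩
  set l := (es G a).card with hl
  have hcard : ∀ i, (es G (ctr i)).card = l := by
    intro i
    exact le_antisymm (es_card_eq hG (hctrY i) ha) (es_card_eq hG ha (hctrY i))
  have e : ∀ i, {v // v ∈ es G (ctr i)} ≃ Fin l := fun i => Finset.equivFinOfCardEq (hcard i)
  set f : Fin 3 × Option (Fin l) → V := fun x =>
    match x.2 with
    | none => ctr x.1
    | some j => ((e x.1).symm j).1 with hf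
  have hf0 : ∀ i, f (i, none) = ctr i := fun i => rfl
  have hf1 : ∀ i j, f (i, some j) ∈ es G (ctr i) := fun i j => ((e i).symm j).2
  have hYI : ∀ i j, f (i, some j) ∉ Yset Gᶜ := by
    intro i j h
    exact mem_Y.1 h (es_sub _ (hf1 i j))
  have hfinj : Function.Injective f := by
    rintro ⟨i, x⟩ ⟨j, y⟩ h
    rcases x with _ | x <;> rcases y with _ | y
    · rw [hf0, hf0] at h
      rw [hctrinj h]
    · exact absurd (h ▸ (hf0 i ▸ hctrY i)) (hYI j y)
    · exact absurd (h.symm ▸ (hf0 j ▸ hctrY j)) (hYI i x)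
    · have h1 := hf1 i x
      have h2 := hf1 j y
      rw [h] at h1
      have hij : i = j := by
        by_contra hne
        exact disjoint_left.1 (es_disjoint hG (hctrY i) (hctrY j) (fun h => hne (hctrinj h))) h1 h2
      subst hij
      have h3 : ((e i).symm x).1 = ((e i).symm y).1 := h
      have h4 : x = y := (e i).symm.injective (Subtype.ext h3)
      rw [h4]
  have hfsurj : Function.Surjective f := by
    intro v
    by_cases hv : v ∈ Yset Gᶜ
    · obtain ⟨i, hi⟩ := hctrsurj v hv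
      exact ⟨(i, none), hi⟩
    · have hvI : v ∈ Iset Gᶜ := by
        by_contra h
        exact hv (mem_Y.2 h)
      obtain ⟨y, hy, hvy⟩ := exists_nbr hG hvI
      obtain ⟨i, hi⟩ := hctrsurj y hy
      subst hi
      refine ⟨(i, some (e i ⟨v, hvy⟩)), ?_⟩
      simp only [hf, Equiv.symm_apply_apply]
  have hadj : ∀ x y, G.Adj (f x) (f y) ↔ (T l).Adj x y := by
    rintro ⟨i, x⟩ ⟨j, y⟩
    rcases x with _ | x <;> rcases y with _ | y
    · rw [hf0, hf0]
      constructor
      · intro h
        exact Or.inl ⟨rfl, rfl, fun hij => h.ne (by rw [show i = j from hij])⟩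
      · rintro (⟨_, _, h⟩ | ⟨_, ⟨_, h⟩ | ⟨h, _⟩⟩)
        · exact Y_adj hG (hctrY i) (hctrY j) (fun h' => h (hctrinj h'))
        · exact absurd rfl h
        · exact absurd rfl h
    · rw [hf0]
      constructor
      · intro h
        right
        refine ⟨?_, Or.inl ⟨rfl, by simp⟩⟩
        by_contra hne
        have h1 : f (j, some y) ∈ es G (ctr i) := mem_es.2 ⟨es_sub _ (hf1 j y), h⟩
        exact disjoint_left.1 (es_disjoint hG (hctrY i) (hctrY j) (fun h => hne (hctrinj h))) h1
          (hf1 j y)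
      · rintro (⟨_, h, _⟩ | ⟨h, _⟩)
        · exact absurd h (by simp)
        · have hij : i = j := h
          subst hij
          exact (mem_es.1 (hf1 i y)).2
    · rw [hf0]
      constructor
      · intro h
        right
        refine ⟨?_, Or.inr ⟨by simp, rfl⟩⟩
        by_contra hne
        have h1 : f (i, some x) ∈ es G (ctr j) := mem_es.2 ⟨es_sub _ (hf1 i x), h.symm⟩
        exact disjoint_left.1 (es_disjoint hG (hctrY i) (hctrY j) (fun h => hne (hctrinj h)))
          (hf1 i x) h1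
      · rintro (⟨h, _, _⟩ | ⟨h, _⟩)
        · exact absurd h (by simp)
        · have hij : i = j := h
          subst hij
          exact (mem_es.1 (hf1 i x)).2.symm
    · constructor
      · intro h
        exact absurd h (I_not_adj hG (es_sub _ (hf1 i x)) (es_sub _ (hf1 j y)))
      · rintro (⟨h, _, _⟩ | ⟨_, ⟨h, _⟩ | ⟨_, h⟩⟩)
        · exact absurd h (by simp)
        · exact absurd h (by simp)
        · exact absurd h (by simp)
  refine ⟨l, es_nonempty hG ha, ⟨SimpleGraph.Iso.symm ⟨Equiv.ofBijective f ⟨hfinj, hfsurj⟩, ?_⟩⟩⟩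
  intro x y
  exact hadj x y

end Q109.Tough
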