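import Pool.Agent.Q109.Tough.Good

/-! The graph is a split graph; final analysis. -/

set_option autoImplicit false
set_option linter.unusedSectionVars false

namespace Q109.Tough

open Finset

variable {V : Type} [Fintype V] [DecidableEq V] {G : SimpleGraph V} {t : ℝ}

open Classical in
/-- the union of the neighbourhoods of the simplicial vertices -/
noncomputable def Iset (H : SimpleGraph V) : Finset V :=
  univ.filter (fun v => ∃ x, Simp H x ∧ H.Adj x v)

open Classical in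
/-- the other vertices -/
noncomputable def Yset (H : SimpleGraph V) : Finset V := univ.filter (fun v => v ∉ Iset H)

lemma mem_I {H : SimpleGraph V} {v : V} : v ∈ Iset H ↔ ∃ x, Simp H x ∧ H.Adj x v := by
  classical
  simp [Iset]

lemma mem_Y {H : SimpleGraph V} {v : V} : v ∈ Yset H ↔ v ∉ Iset H := by
  classical
  simp [Yset]

lemma I_clique (hG : Ctx G t) [Nonempty V] : Clq Gᶜ (Iset Gᶜ) := by
  intro a ha b hb hab
  obtain ⟨x, hx, hxa⟩ := mem_I.1 ha
  obtain ⟨y, hy, hyb⟩ := mem_I.1 hb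
  by_cases hxy : x = y
  · subst hxy; exact hx a b hxa hyb hab
  by_cases hxyH : Gᶜ.Adj x y
  · by_cases hxb : x = b
    · subst hxb; exact hxa.symm
    · exact hx a b hxa (hy x b hxyH.symm hyb hxb) hab
  · by_cases hya : Gᶜ.Adj y a
    · exact hy a b hya hyb hab
    by_cases hxb : Gᶜ.Adj x b
    · exact hx a b hxa hxb hab
    have h1 : a ∈ Ps Gᶜ y x := by
      rw [mem_Ps]
      refine ⟨?_, hya, hxa⟩
      rintro rfl
      exact hxyH hxa
    have h2 : b ∈ Ps Gᶜ x y := by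
      rw [mem_Ps]
      refine ⟨?_, hxb, hyb⟩
      rintro rfl
      exact hxyH hyb.symm
    exact (good_all hG (adj_of hxy hxyH) hx hy b h2 a h1).symm

lemma Y_simp (hG : Ctx G t) [Nonempty V] {v : V} (hv : v ∉ Iset Gᶜ) : Simp Gᶜ v := by
  classical
  by_contra hcon
  have hI := I_clique hG
  unfold Simp at hcon
  push Not at hcon
  obtain ⟨a, b, hva, hvb, hab, hnab⟩ := hcon
  set s : Finset V := univ.filter (fun u => ¬ Simp Gᶜ u) with hs
  have hmem : ∀ u, u ∈ s ↔ ¬ Simp Gᶜ u := by intro u; simp [hs]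
  have ha : a ∈ s := by
    rw [hmem]
    intro h
    exact hv (mem_I.2 ⟨a, h, hva.symm⟩)
  have hb : b ∈ s := by
    rw [hmem]
    intro h
    exact hv (mem_I.2 ⟨b, h, hvb.symm⟩)
  obtain ⟨z1, hz1s, hz1a, haz1, hz1⟩ := Pool.Agent.H255R3.STC.exists_simplicial hG.chordal s.card s
    le_rfl a ha b hb hab.symm hnab
  obtain ⟨z2, hz2s, hz21, hz12, hz2⟩ := Pool.Agent.H255R3.STC.exists_simplicial hG.chordal s.card s
    le_rfl z1 hz1s a ha hz1a.symm (fun h => haz1 h.symm)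
  have key : ∀ g, g ∈ s → g ∉ Iset Gᶜ →
      (∀ a ∈ s, ∀ b ∈ s, Gᶜ.Adj g a → Gᶜ.Adj g b → a ≠ b → Gᶜ.Adj a b) → False := by
    intro g hgs hgI hg
    apply (hmem g).1 hgs
    intro a' b' ha' hb' hab'
    have h1 : ∀ c, Gᶜ.Adj g c → c ∈ s := by
      intro c hc
      rw [hmem]
      intro h
      exact hgI (mem_I.2 ⟨c, h, hc.symm⟩)
    exact hg a' (h1 a' ha') b' (h1 b' hb') ha' hb' hab'
  by_cases h1 : z1 ∈ Iset Gᶜ
  · by_cases h2 : z2 ∈ Iset Gᶜ
    · exact hz12 (hI z1 h1 z2 h2 hz21.symm)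
    · exact key z2 hz2s h2 hz2
  · exact key z1 hz1s h1 hz1

open Classical in
/-- the neighbours in `Iset` -/
noncomputable def es (G : SimpleGraph V) (y : V) : Finset V :=
  (Iset Gᶜ).filter (fun v => G.Adj y v)

lemma mem_es {y v : V} : v ∈ es G y ↔ v ∈ Iset Gᶜ ∧ G.Adj y v := by
  classical
  simp [es]

lemma es_sub (y : V) : es G y ⊆ Iset Gᶜ := fun _ hv => (mem_es.1 hv).1

lemma Y_adj (hG : Ctx G t) [Nonempty V] {y y' : V} (hy : y ∈ Yset Gᶜ) (hy' : y' ∈ Yset Gᶜ)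
    (hne : y ≠ y') : G.Adj y y' := by
  apply adj_of hne
  intro h
  exact (mem_Y.1 hy') (mem_I.2 ⟨y, Y_simp hG (mem_Y.1 hy), h⟩)

lemma I_not_adj (hG : Ctx G t) [Nonempty V] {a b : V} (ha : a ∈ Iset Gᶜ) (hb : b ∈ Iset Gᶜ) :
    ¬ G.Adj a b := by
  intro h
  exact cadj h (I_clique hG a ha b hb h.ne)

lemma exists_nbr (hG : Ctx G t) [Nonempty V] {c : V} (hc : c ∈ Iset Gᶜ) :
    ∃ y ∈ Yset Gᶜ, c ∈ es G y := by
  obtain ⟨w, hw, hcw⟩ := hG.nouniv c
  have h1 : G.Adj c w := adj_of hw.symm hcw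
  refine ⟨w, ?_, mem_es.2 ⟨hc, h1.symm⟩⟩
  rw [mem_Y]
  intro h2
  exact I_not_adj hG hc h2 h1

lemma Cs_eq (hG : Ctx G t) [Nonempty V] {y y' : V} (hy : y ∈ Yset Gᶜ) (hy' : y' ∈ Yset Gᶜ) :
    Cs Gᶜ y y' = Iset Gᶜ \ (es G y ∪ es G y') := by
  ext v
  rw [mem_Cs, mem_sdiff, mem_union, mem_es, mem_es]
  constructor
  · rintro ⟨h1, h2⟩
    refine ⟨mem_I.2 ⟨y, Y_simp hG (mem_Y.1 hy), h1⟩, ?_⟩
    rintro (h | h)
    · exact cadj h.2 h1
    · exact cadj h.2 h2
  · rintro ⟨hv, h⟩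
    have hvy : v ≠ y := by rintro rfl; exact mem_Y.1 hy hv
    have hvy' : v ≠ y' := by rintro rfl; exact mem_Y.1 hy' hv
    constructor
    · by_contra h1
      exact h (Or.inl ⟨hv, adj_of hvy.symm h1⟩)
    · by_contra h1
      exact h (Or.inr ⟨hv, adj_of hvy'.symm h1⟩)

lemma Ms_eq (hG : Ctx G t) [Nonempty V] {y y' : V} (hy : y ∈ Yset Gᶜ) (hy' : y' ∈ Yset Gᶜ) :
    Ms Gᶜ y y' = ((Yset Gᶜ).erase y).erase y' ∪ (es G y ∩ es G y') := by
  ext v
  rw [mem_Ms, mem_union, mem_erase, mem_erase, mem_inter, mem_es, mem_es, mem_Y]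
  constructor
  · rintro ⟨h1, h2, h3, h4⟩
    by_cases hv : v ∈ Iset Gᶜ
    · exact Or.inr ⟨⟨hv, adj_of h1.symm h3⟩, ⟨hv, adj_of h2.symm h4⟩⟩
    · exact Or.inl ⟨h2, h1, hv⟩
  · rintro (⟨h1, h2, h3⟩ | ⟨⟨h1, h2⟩, ⟨_, h3⟩⟩)
    · refine ⟨h2, h1, ?_, ?_⟩
      · exact fun h => h3 (mem_I.2 ⟨y, Y_simp hG (mem_Y.1 hy), h⟩)
      · exact fun h => h3 (mem_I.2 ⟨y', Y_simp hG (mem_Y.1 hy'), h⟩)
    · exact ⟨h2.ne.symm, h3.ne.symm, cadj h2, cadj h3⟩

lemma card_Cs_eq (hG : Ctx G t) [Nonempty V] {y y' : V} (hy : y ∈ Yset Gᶜ) (hy' : y' ∈ Yset Gᶜ) :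
    (Cs Gᶜ y y').card + (es G y ∪ es G y').card = (Iset Gᶜ).card := by
  rw [Cs_eq hG hy hy']
  exact card_sdiff_add_card_eq_card (union_subset (es_sub y) (es_sub y'))

lemma card_Ms_eq (hG : Ctx G t) [Nonempty V] {y y' : V} (hy : y ∈ Yset Gᶜ) (hy' : y' ∈ Yset Gᶜ)
    (hne : y ≠ y') : (Ms Gᶜ y y').card + 2 = (Yset Gᶜ).card + (es G y ∩ es G y').card := by
  rw [Ms_eq hG hy hy', card_union_of_disjoint, card_erase_of_mem, card_erase_of_mem hy]
  · have h1 : 2 ≤ (Yset Gᶜ).card := by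
      rw [← card_pair hne]
      apply card_le_card
      intro v hv
      rw [mem_insert, mem_singleton] at hv
      rcases hv with rfl | rfl
      · exact hy
      · exact hy'
    omega
  · exact mem_erase.2 ⟨hne.symm, hy'⟩
  · rw [disjoint_left]
    intro v hv hv'
    exact mem_Y.1 (mem_of_mem_erase (mem_of_mem_erase hv)) (mem_es.1 (mem_inter.1 hv').1).1

/-- the main inequality for two vertices of `Yset` -/
lemma pair_Y (hG : Ctx G t) [Nonempty V] {y y' : V} (hy : y ∈ Yset Gᶜ) (hy' : y' ∈ Yset Gᶜ)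
    (hne : y ≠ y') : ((Yset Gᶜ).card : ℝ) + (es G y ∩ es G y').card +
      t * (es G y ∪ es G y').card < t * ((Iset Gᶜ).card + 2) + 2 := by
  obtain ⟨P0, Q0, _, _, _, h⟩ := pair_ineq hG.toHyp (Y_adj hG hy hy' hne)
    (Y_simp hG (mem_Y.1 hy)) (Y_simp hG (mem_Y.1 hy'))
  have h1 : ((Cs Gᶜ y y').card : ℝ) + (es G y ∪ es G y').card = (Iset Gᶜ).card := by
    exact_mod_cast card_Cs_eq hG hy hy'
  have h2 : ((Ms Gᶜ y y').card : ℝ) + 2 = (Yset Gᶜ).card + (es G y ∩ es G y').card := by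
    exact_mod_cast card_Ms_eq hG hy hy' hne
  have h3 : (0 : ℝ) ≤ P0.card := Nat.cast_nonneg _
  have h4 : (0 : ℝ) ≤ Q0.card := Nat.cast_nonneg _
  have h5 : ((Cs Gᶜ y y').card : ℝ) = (Iset Gᶜ).card - (es G y ∪ es G y').card := by linarith
  rw [h5] at h
  nlinarith

lemma union_lt (hG : Ctx G t) [Nonempty V] {y y' : V} (hy : y ∈ Yset Gᶜ) (hy' : y' ∈ Yset Gᶜ)
    (hne : y ≠ y') : (es G y ∪ es G y').card < (Iset Gᶜ).card := by
  have h := card_Cs_eq hG hy hy'
  obtain ⟨c, hc1, hc2⟩ := hG.common y y' hne (cadj (Y_adj hG hy hy' hne))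
  have : 0 < (Cs Gᶜ y y').card := card_pos.2 ⟨c, mem_Cs.2 ⟨hc1, hc2⟩⟩
  omega

/-- two different vertices in `Yset`, one of them given -/
lemma exists_other (hG : Ctx G t) [Nonempty V] {y : V} (hy : y ∈ Yset Gᶜ) :
    ∃ y' ∈ Yset Gᶜ, y' ≠ y := by
  obtain ⟨w, hw, hyw⟩ := hG.nouniv y
  by_cases hwI : w ∈ Iset Gᶜ
  · obtain ⟨c, hc1, hc2⟩ := hG.common y w hw.symm hyw
    have hc : c ∈ Iset Gᶜ := mem_I.2 ⟨y, Y_simp hG (mem_Y.1 hy), hc1⟩
    obtain ⟨y2, hy2, hc2'⟩ := exists_nbr hG hc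
    refine ⟨y2, hy2, ?_⟩
    rintro rfl
    exact cadj (mem_es.1 hc2').2 hc1
  · exact ⟨w, mem_Y.2 hwI, hw⟩

lemma Y_nonempty (hG : Ctx G t) [Nonempty V] : ∃ y, y ∈ Yset Gᶜ := by
  obtain ⟨v⟩ := ‹Nonempty V›
  by_cases hv : v ∈ Iset Gᶜ
  · obtain ⟨y, hy, _⟩ := exists_nbr hG hv
    exact ⟨y, hy⟩
  · exact ⟨v, mem_Y.2 hv⟩

lemma card_V : (Iset Gᶜ).card + (Yset Gᶜ).card = Fintype.card V := by
  classical
  have h := card_filter_add_card_filter_not (s := (univ : Finset V)) (fun v => v ∈ Iset Gᶜ)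
  rw [card_univ] at h
  have h1 : univ.filter (fun v => v ∈ Iset Gᶜ) = Iset Gᶜ := by ext v; simp
  have h2 : univ.filter (fun v => v ∉ Iset Gᶜ) = Yset Gᶜ := by ext v; simp [mem_Y]
  rw [h1, h2] at h
  exact h

lemma I_two (hG : Ctx G t) [Nonempty V] : 2 ≤ (Iset Gᶜ).card := by
  obtain ⟨y, hy⟩ := Y_nonempty hG
  obtain ⟨y', hy', hne⟩ := exists_other hG hy
  have h1 := union_lt hG hy hy' hne.symm
  obtain ⟨c, hc⟩ : (Iset Gᶜ).Nonempty := card_pos.1 (by omega)
  obtain ⟨y1, hy1, hc1⟩ := exists_nbr hG hc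
  obtain ⟨y2, hy2, hne2⟩ := exists_other hG hy1
  have h2 := union_lt hG hy1 hy2 hne2.symm
  have h3 : 0 < (es G y1 ∪ es G y2).card := card_pos.2 ⟨c, mem_union_left _ hc1⟩
  omega

open Classical in
/-- the neighbours in `Yset` -/
noncomputable def ds (G : SimpleGraph V) (c : V) : Finset V :=
  (Yset Gᶜ).filter (fun y => G.Adj y c)

lemma mem_ds {c y : V} : y ∈ ds G c ↔ y ∈ Yset Gᶜ ∧ G.Adj y c := by
  classical
  simp [ds]

lemma deg_ge (hG : Ctx G t) [Nonempty V] {c : V} (hc : c ∈ Iset Gᶜ) :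
    2 * t ≤ (ds G c).card := by
  classical
  obtain ⟨x, _, hxc⟩ := mem_I.1 hc
  have h1 := clique_ineq_a hG.toHyp (K := {c}) (R := Ds Gᶜ c)
    (by
      intro a ha b hb hab
      rw [mem_singleton] at ha hb
      exact absurd (ha.trans hb.symm) hab)
    (singleton_nonempty c) ⟨x, mem_Ds.2 hxc.symm⟩
    (by
      intro r hr k hk
      rw [mem_singleton] at hk
      rw [hk]
      exact mem_Ds.1 hr)
  have h2 : (univ : Finset V) ⊆ {c} ∪ (Ds Gᶜ c ∪ ds G c) := by
    intro v _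
    rw [mem_union, mem_union, mem_singleton, mem_Ds, mem_ds]
    by_cases hvc : v = c
    · exact Or.inl hvc
    · by_cases h3 : Gᶜ.Adj c v
      · exact Or.inr (Or.inl h3)
      · have h4 := adj_of (Ne.symm hvc) h3
        refine Or.inr (Or.inr ⟨?_, h4.symm⟩)
        rw [mem_Y]
        intro h5
        exact I_not_adj hG hc h5 h4
  have h3 := (card_le_card h2).trans ((card_union_le _ _).trans
    (Nat.add_le_add_left (card_union_le _ _) _))
  rw [card_univ, card_singleton] at h3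
  have h4 : (Fintype.card V : ℝ) ≤ 1 + ((Ds Gᶜ c).card + (ds G c).card) := by exact_mod_cast h3
  rw [card_singleton] at h1
  push_cast at h1
  linarith

/-- the case `t > 1` is impossible -/
theorem not_big (hG : Ctx G t) [Nonempty V] : t ≤ 1 := by
  classical
  by_contra ht
  push Not at ht
  have h2 := I_two hG
  have hlow : t * (Iset Gᶜ).card ≤ (Yset Gᶜ).card := by
    have h1 := clique_ineq_b hG.toHyp (I_clique hG) h2
    have h3 : ((Iset Gᶜ).card : ℝ) + (Yset Gᶜ).card = Fintype.card V := by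
      exact_mod_cast card_V (G := G)
    linarith
  by_cases hc : ∀ y ∈ Yset Gᶜ, (es G y).card ≤ 1
  · -- all of size at most one
    obtain ⟨c1, hc1, c2, hc2, hne⟩ := one_lt_card.1 (by omega : 1 < (Iset Gᶜ).card)
    obtain ⟨y1, hy1, hcy1⟩ := exists_nbr hG hc1
    obtain ⟨y2, hy2, hcy2⟩ := exists_nbr hG hc2
    have hne12 : y1 ≠ y2 := by
      rintro rfl
      exact hne (card_le_one.1 (hc y1 hy1) c1 hcy1 c2 hcy2)
    have hpair := pair_Y hG hy1 hy2 hne12
    have hlt := union_lt hG hy1 hy2 hne12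
    have hu : 2 ≤ (es G y1 ∪ es G y2).card := by
      rw [← card_pair hne]
      apply card_le_card
      intro v hv
      rw [mem_insert, mem_singleton] at hv
      rcases hv with rfl | rfl
      · exact mem_union_left _ hcy1
      · exact mem_union_right _ hcy2
    have hcount : ∑ c ∈ Iset Gᶜ, (ds G c).card = ∑ y ∈ Yset Gᶜ, (es G y).card := by
      have := sum_card_bipartiteAbove_eq_sum_card_bipartiteBelow (s := Iset Gᶜ) (t := Yset Gᶜ)
        (fun c y => G.Adj y c)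
      unfold bipartiteAbove bipartiteBelow at this
      have e1 : ∀ c, ds G c = (Yset Gᶜ).filter (fun y => G.Adj y c) := by
        intro c; ext y; rw [mem_ds, mem_filter]
      have e2 : ∀ y, es G y = (Iset Gᶜ).filter (fun c => G.Adj y c) := by
        intro y; ext c; rw [mem_es, mem_filter]
      simp only [e1, e2]
      exact this
    have h3 : ∑ y ∈ Yset Gᶜ, (es G y).card ≤ (Yset Gᶜ).card := by
      calc ∑ y ∈ Yset Gᶜ, (es G y).card ≤ ∑ y ∈ Yset Gᶜ, 1 := sum_le_sum (fun y hy => hc y hy)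
        _ = (Yset Gᶜ).card := by simp
    have h4 : (∑ c ∈ Iset Gᶜ, (2 * t)) ≤ ∑ c ∈ Iset Gᶜ, ((ds G c).card : ℝ) :=
      sum_le_sum (fun c hc => deg_ge hG hc)
    rw [sum_const, nsmul_eq_mul] at h4
    have h5 : (∑ c ∈ Iset Gᶜ, ((ds G c).card : ℝ)) ≤ (Yset Gᶜ).card := by
      have : ((∑ c ∈ Iset Gᶜ, (ds G c).card : ℕ) : ℝ) ≤ (Yset Gᶜ).card := by
        rw [hcount]; exact_mod_cast h3
      push_cast at this
      exact this
    have r1 : (2 : ℝ) ≤ (es G y1 ∪ es G y2).card := by exact_mod_cast hu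
    have r2 : ((es G y1 ∪ es G y2).card : ℝ) + 1 ≤ (Iset Gᶜ).card := by exact_mod_cast hlt
    have r3 : (0 : ℝ) ≤ (es G y1 ∩ es G y2).card := Nat.cast_nonneg _
    nlinarith [mul_nonneg (sub_nonneg.2 ht.le) (sub_nonneg.2 r1),
      mul_nonneg (sub_nonneg.2 ht.le) (sub_nonneg.2 (show (3 : ℝ) ≤ (Iset Gᶜ).card by linarith))]
  · push Not at hc
    obtain ⟨y, hy, hey⟩ := hc
    obtain ⟨y0, hy0, hne0⟩ := exists_other hG hy
    have hlt0 := union_lt hG hy hy0 hne0.symm
    -- structure of the neighbours of the vertices outside `es G y`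
    have key : ∀ c ∈ Iset Gᶜ, c ∉ es G y → ∀ y' ∈ Yset Gᶜ, c ∈ es G y' →
        (es G y).card = 2 ∧ (∀ v ∈ es G y', v = c) ∧ 4 ≤ (Iset Gᶜ).card ∧
        ((Yset Gᶜ).card : ℝ) < t * ((Iset Gᶜ).card - 1) + 2 := by
      intro c hcI hcy y' hy' hcy'
      have hne : y ≠ y' := by rintro rfl; exact hcy hcy'
      have hpair := pair_Y hG hy hy' hne
      have hlt := union_lt hG hy hy' hne
      have hui := card_union_add_card_inter (es G y) (es G y')
      have hge : (es G y).card + 1 ≤ (es G y ∪ es G y').card := by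
        rw [← card_insert_of_notMem hcy]
        apply card_le_card
        intro v hv
        rw [mem_insert] at hv
        rcases hv with rfl | hv
        · exact mem_union_right _ hcy'
        · exact mem_union_left _ hv
      have hle3 : (es G y ∪ es G y').card ≤ 3 := by
        by_contra hcon
        have h4 : (4 : ℝ) ≤ (es G y ∪ es G y').card := by
          exact_mod_cast (by omega : 4 ≤ (es G y ∪ es G y').card)
        have r3 : (0 : ℝ) ≤ (es G y ∩ es G y').card := Nat.cast_nonneg _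
        nlinarith [mul_nonneg hG.pos.le (sub_nonneg.2 h4)]
      have h3 : (es G y ∪ es G y').card = 3 := by omega
      have hinter : (es G y ∩ es G y').card = 0 := by
        by_contra hcon
        have r1 : (1 : ℝ) ≤ (es G y ∩ es G y').card := by
          exact_mod_cast (by omega : 1 ≤ (es G y ∩ es G y').card)
        rw [h3] at hpair
        push_cast at hpair
        nlinarith
      have h5 : (es G y').card = 1 := by
        have : 1 ≤ (es G y').card := card_pos.2 ⟨c, hcy'⟩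
        omega
      refine ⟨by omega, ?_, by omega, ?_⟩
      · intro v hv
        exact card_le_one.1 (by omega : (es G y').card ≤ 1) v hv c hcy'
      · rw [h3, hinter] at hpair
        push_cast at hpair
        linarith
    -- an element outside
    obtain ⟨c, hcI, hcy⟩ : ∃ c ∈ Iset Gᶜ, c ∉ es G y := by
      by_contra hcon
      push Not at hcon
      have h1 : (Iset Gᶜ).card ≤ (es G y ∪ es G y0).card :=
        card_le_card (fun v hv => mem_union_left _ (hcon v hv))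
      omega
    obtain ⟨y1, hy1, hcy1⟩ := exists_nbr hG hcI
    obtain ⟨k1, k2, k3, k4⟩ := key c hcI hcy y1 hy1 hcy1
    obtain ⟨a, ha⟩ : (es G y).Nonempty := card_pos.1 (by omega)
    have haI := es_sub y ha
    -- disjoint neighbourhoods
    have hout : ∀ c' ∈ Iset Gᶜ \ es G y, ∀ y' ∈ ds G c', ∀ v ∈ es G y', v = c' := by
      intro c' hc' y' hy'
      rw [mem_sdiff] at hc'
      rw [mem_ds] at hy'
      exact (key c' hc'.1 hc'.2 y' hy'.1 (mem_es.2 ⟨hc'.1, hy'.2⟩)).2.1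
    have hdis : Set.PairwiseDisjoint (↑(insert a (Iset Gᶜ \ es G y)) : Set V) (ds G) := by
      intro c' hc' c'' hc'' hne
      rw [Function.onFun, disjoint_left]
      intro y' hy' hy''
      rw [mem_coe, mem_insert] at hc' hc''
      have hI' : c' ∈ Iset Gᶜ := by
        rcases hc' with rfl | h
        · exact haI
        · exact (mem_sdiff.1 h).1
      have hI'' : c'' ∈ Iset Gᶜ := by
        rcases hc'' with rfl | h
        · exact haI
        · exact (mem_sdiff.1 h).1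
      have e1 : c' ∈ es G y' := mem_es.2 ⟨hI', (mem_ds.1 hy').2⟩
      have e2 : c'' ∈ es G y' := mem_es.2 ⟨hI'', (mem_ds.1 hy'').2⟩
      rcases hc' with rfl | h1
      · rcases hc'' with rfl | h2
        · exact hne rfl
        · exact hne (hout c'' h2 y' hy'' c' e1)
      · exact hne (hout c' h1 y' hy' c'' e2).symm
    have hbi := card_biUnion hdis
    have hsub : ((insert a (Iset Gᶜ \ es G y)).biUnion (ds G)).card ≤ (Yset Gᶜ).card := by
      apply card_le_card
      intro v hv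
      rw [mem_biUnion] at hv
      obtain ⟨c', _, hc'⟩ := hv
      exact (mem_ds.1 hc').1
    have hcardset : (insert a (Iset Gᶜ \ es G y)).card = (Iset Gᶜ).card - 1 := by
      rw [card_insert_of_notMem (fun h => (mem_sdiff.1 h).2 ha),
        card_sdiff_of_subset (es_sub y), k1]
      omega
    have h4 : (∑ c ∈ insert a (Iset Gᶜ \ es G y), (2 * t)) ≤
        ∑ c ∈ insert a (Iset Gᶜ \ es G y), ((ds G c).card : ℝ) := by
      apply sum_le_sum
      intro c' hc'
      apply deg_ge hG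
      rw [mem_insert] at hc'
      rcases hc' with rfl | h
      · exact haI
      · exact (mem_sdiff.1 h).1
    rw [sum_const, nsmul_eq_mul, hcardset] at h4
    have h5 : ∑ c ∈ insert a (Iset Gᶜ \ es G y), ((ds G c).card : ℝ) ≤ (Yset Gᶜ).card := by
      have : ((∑ c ∈ insert a (Iset Gᶜ \ es G y), (ds G c).card : ℕ) : ℝ) ≤ (Yset Gᶜ).card := by
        rw [← hbi]; exact_mod_cast hsub
      push_cast at this
      exact this
    have h6 : (((Iset Gᶜ).card - 1 : ℕ) : ℝ) = (Iset Gᶜ).card - 1 := by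
      rw [Nat.cast_sub (by omega)]; norm_num
    rw [h6] at h4
    have h7 : (4 : ℝ) ≤ (Iset Gᶜ).card := by exact_mod_cast k3
    nlinarith [mul_nonneg (sub_nonneg.2 ht.le) (sub_nonneg.2 h7)]

end Q109.Tough
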