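import Pool.Agent.Q109.Tough.Forward

/-! Properties of the graphs `T l`, and invariance under isomorphism. -/

set_option autoImplicit false
set_option linter.unusedSectionVars false

namespace Q109.Tough

open Finset
open scoped ENNReal

/-! ### Adjacency in `T l` -/

lemma T_cc {l : ℕ} {i j : Fin 3} (h : i ≠ j) : (T l).Adj (i, none) (j, none) :=
  Or.inl ⟨rfl, rfl, h⟩

lemma T_cl {l : ℕ} (i : Fin 3) (m : Fin l) : (T l).Adj (i, none) (i, some m) :=
  Or.inr ⟨rfl, Or.inl ⟨rfl, by simp⟩⟩

lemma T_edge {l : ℕ} {x y : Fin 3 × Option (Fin l)} (h : (T l).Adj x y) :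
    (x.2 = none ∧ y.2 = none ∧ x.1 ≠ y.1) ∨ (x.1 = y.1 ∧ x.2 = none ∧ y.2 ≠ none) ∨
      (x.1 = y.1 ∧ x.2 ≠ none ∧ y.2 = none) := by
  rcases h with h | ⟨h1, h | h⟩
  · exact Or.inl h
  · exact Or.inr (Or.inl ⟨h1, h⟩)
  · exact Or.inr (Or.inr ⟨h1, h⟩)

/-! ### Toughness of `T l` -/

lemma T_comps_le (l : ℕ) (hl : 1 ≤ l) (S : Finset (Fin 3 × Option (Fin l)))
    (hS : 2 ≤ comps (T l) S) : comps (T l) S ≤ (l + 1) * S.card := by
  classical
  have step : ∀ a b (ha : a ∉ S) (hb : b ∉ S), (T l).Adj a b →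
      ((T l).induce {v | v ∉ S}).Reachable ⟨a, ha⟩ ⟨b, hb⟩ := by
    intro a b ha hb hab
    apply SimpleGraph.Adj.reachable
    exact hab
  set A : Finset (Fin 3) := univ.filter (fun i => ((i, none) : Fin 3 × Option (Fin l)) ∈ S) with hA
  have hAmem : ∀ i, i ∈ A ↔ ((i, none) : Fin 3 × Option (Fin l)) ∈ S := by
    intro i; simp [hA]
  have hAS : A.card ≤ S.card := by
    apply card_le_card_of_injOn (fun i => (i, none))
    · intro i hi
      exact (hAmem i).1 hi
    · intro i _ j _ h
      exact (Prod.mk.inj h).1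
  -- leaves of removed centres
  set L : Finset (Fin 3 × Option (Fin l)) :=
    (A ×ˢ (univ : Finset (Fin l))).image (fun x => (x.1, some x.2)) with hL
  have hLcard : L.card ≤ A.card * l := by
    refine card_image_le.trans ?_
    rw [card_product, card_univ, Fintype.card_fin]
  have hLmem : ∀ i m, i ∈ A → ((i, some m) : Fin 3 × Option (Fin l)) ∈ L := by
    intro i m hi
    rw [hL, mem_image]
    exact ⟨(i, m), mem_product.2 ⟨hi, mem_univ m⟩, rfl⟩
  by_cases hall : ∃ i0, i0 ∉ A
  · obtain ⟨i0, hi0⟩ := hall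
    have hi0S : ((i0, none) : Fin 3 × Option (Fin l)) ∉ S := fun h => hi0 ((hAmem i0).2 h)
    have hub : comps (T l) S ≤ (insert (i0, none) L).card := by
      apply comps_le
      rintro ⟨i, x⟩ hv
      have hcen : ∀ (h : ((i, none) : Fin 3 × Option (Fin l)) ∉ S),
          ((T l).induce {v | v ∉ S}).Reachable ⟨(i0, none), hi0S⟩ ⟨(i, none), h⟩ := by
        intro h
        by_cases hii : i0 = i
        · subst hii; exact SimpleGraph.Reachable.rfl
        · exact step _ _ hi0S h (T_cc hii)
      rcases x with _ | m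
      · exact ⟨(i0, none), mem_insert_self _ _, hi0S, hcen hv⟩
      · by_cases hi : i ∈ A
        · exact ⟨(i, some m), mem_insert_of_mem (hLmem i m hi), hv, SimpleGraph.Reachable.rfl⟩
        · have hiS : ((i, none) : Fin 3 × Option (Fin l)) ∉ S := fun h => hi ((hAmem i).2 h)
          exact ⟨(i0, none), mem_insert_self _ _, hi0S,
            (hcen hiS).trans (step _ _ hiS hv (T_cl i m))⟩
    have hub2 : comps (T l) S ≤ A.card * l + 1 :=
      hub.trans ((card_insert_le _ _).trans (by omega))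
    have hApos : 1 ≤ A.card := by
      by_contra hcon
      have : A.card = 0 := by omega
      rw [this] at hub2
      omega
    calc comps (T l) S ≤ A.card * l + 1 := hub2
      _ ≤ A.card * l + A.card := by omega
      _ = (l + 1) * A.card := by ring
      _ ≤ (l + 1) * S.card := Nat.mul_le_mul_left _ hAS
  · push Not at hall
    have hub : comps (T l) S ≤ L.card := by
      apply comps_le
      rintro ⟨i, x⟩ hv
      rcases x with _ | m
      · exact absurd ((hAmem i).1 (hall i)) hv
      · exact ⟨(i, some m), hLmem i m (hall i), hv, SimpleGraph.Reachable.rfl⟩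
    calc comps (T l) S ≤ A.card * l := hub.trans hLcard
      _ ≤ A.card * (l + 1) := Nat.mul_le_mul_left _ (by omega)
      _ = (l + 1) * A.card := by ring
      _ ≤ (l + 1) * S.card := Nat.mul_le_mul_left _ hAS

/-- an upper bound for the toughness from one set -/
lemma toughness_le_of {V : Type} [Fintype V] [DecidableEq V] (G : SimpleGraph V) (S : Finset V)
    {m : ℕ} (hm : 2 ≤ m) (h : m ≤ comps G S) : toughness G ≤ (S.card : ℝ≥0∞) / (m : ℝ≥0∞) := by
  refine (iInf₂_le S (hm.trans h)).trans ?_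
  apply ENNReal.div_le_div_left
  exact_mod_cast h

lemma T_upper (l : ℕ) (hl : 1 ≤ l) : toughness (T l) ≤ 1 / ((l + 1 : ℕ) : ℝ≥0∞) := by
  classical
  have h := toughness_le_of (T l) {((0 : Fin 3), none)} (m := l + 1) (by omega) (by
    have h1 : (insert (((1 : Fin 3), none) : Fin 3 × Option (Fin l))
        (univ.image (fun m : Fin l => ((0 : Fin 3), some m)))).card ≤
        comps (T l) {((0 : Fin 3), none)} := by
      apply le_comps (T l) _ (fun v => if v.1 = 0 then some v.2 else none)
      · rintro u v hu hv huv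
        rw [mem_singleton] at hu hv
        rcases T_edge huv with ⟨h1, h2, h3⟩ | ⟨h1, h2, h3⟩ | ⟨h1, h2, h3⟩
        · have hu0 : u.1 ≠ 0 := fun h => hu (Prod.ext h h1)
          have hv0 : v.1 ≠ 0 := fun h => hv (Prod.ext h h2)
          simp only [hu0, hv0, if_false]
        · have hu0 : u.1 ≠ 0 := fun h => hu (Prod.ext h h2)
          have hv0 : v.1 ≠ 0 := by rw [← h1]; exact hu0
          simp only [hu0, hv0, if_false]
        · have hv0 : v.1 ≠ 0 := fun h => hv (Prod.ext h h3)
          have hu0 : u.1 ≠ 0 := by rw [h1]; exact hv0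
          simp only [hu0, hv0, if_false]
      · intro v hv hv'
        rw [mem_singleton] at hv'
        subst hv'
        rw [mem_insert, mem_image] at hv
        rcases hv with h | ⟨m, _, h⟩
        · exact absurd (Prod.mk.inj h).1 (by decide)
        · exact absurd (Prod.mk.inj h).2 (by simp)
      · intro a ha b hb hab
        rw [mem_coe, mem_insert, mem_image] at ha hb
        rcases ha with rfl | ⟨m, _, rfl⟩ <;> rcases hb with rfl | ⟨m', _, rfl⟩
        · rfl
        · simp at hab
        · simp at hab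
        · simpa using hab
    refine le_trans (le_of_eq ?_) h1
    rw [card_insert_of_notMem, card_image_of_injective, card_univ, Fintype.card_fin]
    · intro a b hab
      simpa using hab
    · rw [mem_image]
      rintro ⟨m, _, h⟩
      exact absurd (Prod.mk.inj h).2 (by simp))
  rw [card_singleton, Nat.cast_one] at h
  exact h

lemma T_lower (l : ℕ) (hl : 1 ≤ l) : 1 / ((l + 1 : ℕ) : ℝ≥0∞) ≤ toughness (T l) := by
  apply le_iInf₂
  intro S hS
  have h1 := T_comps_le l hl S hS
  have hb : ((comps (T l) S : ℕ) : ℝ≥0∞) ≠ 0 := by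
    have : comps (T l) S ≠ 0 := by omega
    exact_mod_cast this
  have hl0 : ((l + 1 : ℕ) : ℝ≥0∞) ≠ 0 := by exact_mod_cast (by omega : l + 1 ≠ 0)
  rw [ENNReal.le_div_iff_mul_le (Or.inl hb) (Or.inl (ENNReal.natCast_ne_top _)), mul_comm,
    ← mul_div_assoc, mul_one, ENNReal.div_le_iff_le_mul (Or.inl hl0)
    (Or.inl (ENNReal.natCast_ne_top _))]
  have h2 : comps (T l) S ≤ S.card * (l + 1) := by rw [mul_comm]; exact h1
  exact_mod_cast h2

theorem T_toughness (l : ℕ) (hl : 1 ≤ l) : toughness (T l) = 1 / ((l + 1 : ℕ) : ℝ≥0∞) :=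
  le_antisymm (T_upper l hl) (T_lower l hl)

/-! ### `T l` is minimally tough -/

lemma T_pos (l : ℕ) (hl : 1 ≤ l) : 0 < toughness (T l) := by
  rw [T_toughness l hl]
  exact ENNReal.div_pos one_ne_zero (ENNReal.natCast_ne_top _)

lemma T_del_leaf (l : ℕ) (hl : 1 ≤ l) (i : Fin 3) (m : Fin l) :
    toughness ((T l).deleteEdges {s((i, none), (i, some m))}) < toughness (T l) := by
  classical
  refine lt_of_le_of_lt (toughness_le_of _ ∅ (m := 2) le_rfl ?_) (by simpa using T_pos l hl)
  have h1 : ({((i, none) : Fin 3 × Option (Fin l)), (i, some m)} : Finset _).card ≤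
      comps ((T l).deleteEdges {s((i, none), (i, some m))}) ∅ := by
    apply le_comps _ _ (fun v => decide (v = ((i, some m) : Fin 3 × Option (Fin l))))
    · intro u v _ _ huv
      rw [SimpleGraph.deleteEdges_adj, Set.mem_singleton_iff] at huv
      have hu : u ≠ (i, some m) := by
        rintro rfl
        rcases T_edge huv.1 with ⟨h1, _, _⟩ | ⟨_, h1, _⟩ | ⟨h1, _, h3⟩
        · exact absurd h1 (by simp)
        · exact absurd h1 (by simp)
        · apply huv.2
          have e1 : v = (i, none) := Prod.ext h1.symm h3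
          rw [e1, Sym2.eq_swap]
      have hv : v ≠ (i, some m) := by
        rintro rfl
        rcases T_edge huv.1 with ⟨_, h1, _⟩ | ⟨h1, h3, _⟩ | ⟨_, _, h1⟩
        · exact absurd h1 (by simp)
        · apply huv.2
          have : u = (i, none) := Prod.ext h1 h3
          rw [this]
        · exact absurd h1 (by simp)
      simp only [hu, hv]
    · intro v _; exact notMem_empty v
    · intro a ha b hb hab
      rw [mem_coe, mem_insert, mem_singleton] at ha hb
      rcases ha with rfl | rfl <;> rcases hb with rfl | rfl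
      · rfl
      · simp at hab
      · simp at hab
      · rfl
  rw [card_pair (by simp)] at h1
  exact h1

lemma T_del_centre (l : ℕ) (hl : 1 ≤ l) (i j : Fin 3) (hij : i ≠ j) :
    toughness ((T l).deleteEdges {s((i, none), (j, none))}) < toughness (T l) := by
  classical
  obtain ⟨k, hki, hkj⟩ : ∃ k : Fin 3, k ≠ i ∧ k ≠ j := by
    revert i j
    decide
  have hthird : ∀ a b : Fin 3, a ≠ b → a ≠ k → b ≠ k → (a = i ∧ b = j) ∨ (a = j ∧ b = i) := by
    revert i j k
    decide
  refine lt_of_le_of_lt (toughness_le_of _ {(k, none)} (m := l + 2) (by omega) ?_) ?_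
  · have h1 : (insert ((i, none) : Fin 3 × Option (Fin l)) (insert (j, none)
        (univ.image (fun m : Fin l => (k, some m))))).card ≤
        comps ((T l).deleteEdges {s((i, none), (j, none))}) {(k, none)} := by
      apply le_comps _ _ (fun v => (v.1, if v.1 = k then v.2 else none))
      · intro u v hu hv huv
        rw [SimpleGraph.deleteEdges_adj, Set.mem_singleton_iff] at huv
        rw [mem_singleton] at hu hv
        rcases T_edge huv.1 with ⟨h1, h2, h3⟩ | ⟨h1, h2, h3⟩ | ⟨h1, h2, h3⟩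
        · exfalso
          have hu0 : u.1 ≠ k := fun h => hu (Prod.ext h h1)
          have hv0 : v.1 ≠ k := fun h => hv (Prod.ext h h2)
          apply huv.2
          rcases hthird u.1 v.1 h3 hu0 hv0 with ⟨h4, h5⟩ | ⟨h4, h5⟩
          · have e1 : u = (i, none) := Prod.ext h4 h1
            have e2 : v = (j, none) := Prod.ext h5 h2
            rw [e1, e2]
          · have e1 : u = (j, none) := Prod.ext h4 h1
            have e2 : v = (i, none) := Prod.ext h5 h2
            rw [e1, e2, Sym2.eq_swap]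
        · have hu0 : u.1 ≠ k := fun h => hu (Prod.ext h h2)
          have hv0 : v.1 ≠ k := by rw [← h1]; exact hu0
          simp only [h1, hv0, if_false]
        · have hv0 : v.1 ≠ k := fun h => hv (Prod.ext h h3)
          simp only [h1, hv0, if_false]
      · intro v hv hv'
        rw [mem_singleton] at hv'
        subst hv'
        rw [mem_insert, mem_insert, mem_image] at hv
        rcases hv with h | h | ⟨m, _, h⟩
        · exact hki (Prod.mk.inj h).1
        · exact hkj (Prod.mk.inj h).1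
        · exact absurd (Prod.mk.inj h).2 (by simp)
      · intro a ha b hb hab
        rw [mem_coe, mem_insert, mem_insert, mem_image] at ha hb
        rcases ha with rfl | rfl | ⟨m, _, rfl⟩ <;> rcases hb with rfl | rfl | ⟨m', _, rfl⟩
        · rfl
        · exact absurd (Prod.mk.inj hab).1 hij
        · exact absurd (Prod.mk.inj hab).1 hki.symm
        · exact absurd (Prod.mk.inj hab).1 hij.symm
        · rfl
        · exact absurd (Prod.mk.inj hab).1 hkj.symm
        · exact absurd (Prod.mk.inj hab).1 hki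
        · exact absurd (Prod.mk.inj hab).1 hkj
        · have h2 := (Prod.mk.inj hab).2
          simp only [if_true] at h2
          rw [h2]
    refine le_trans (le_of_eq ?_) h1
    rw [card_insert_of_notMem, card_insert_of_notMem, card_image_of_injective, card_univ,
      Fintype.card_fin]
    · intro a b hab
      simpa using hab
    · rw [mem_image]
      rintro ⟨m, _, h⟩
      exact absurd (Prod.mk.inj h).2 (by simp)
    · rw [mem_insert, mem_image]
      rintro (h | ⟨m, _, h⟩)
      · exact hij (Prod.mk.inj h).1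
      · exact absurd (Prod.mk.inj h).2 (by simp)
  · rw [T_toughness l hl, card_singleton, Nat.cast_one, one_div, one_div, ENNReal.inv_lt_inv]
    exact_mod_cast (by omega : l + 1 < l + 2)

theorem T_minTough (l : ℕ) (hl : 1 ≤ l) : MinTough (T l) := by
  rintro ⟨i, x⟩ ⟨j, y⟩ h
  rcases T_edge h with ⟨h1, h2, h3⟩ | ⟨h1, h2, h3⟩ | ⟨h1, h2, h3⟩
  · simp only at h1 h2 h3
    subst h1 h2
    exact T_del_centre l hl i j h3
  · simp only at h1 h2 h3
    subst h1 h2
    obtain ⟨m, rfl⟩ := Option.ne_none_iff_exists'.1 h3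
    exact T_del_leaf l hl i m
  · simp only at h1 h2 h3
    subst h1 h3
    obtain ⟨m, rfl⟩ := Option.ne_none_iff_exists'.1 h2
    rw [Sym2.eq_swap]
    exact T_del_leaf l hl i m

theorem T_nontriv (l : ℕ) (hl : 1 ≤ l) : NontrivMinTough (T l) := by
  refine ⟨T_minTough l hl, ?_, ?_⟩
  · intro h
    have h1 : (T l).Adj ((0 : Fin 3), some ⟨0, hl⟩) ((1 : Fin 3), some ⟨0, hl⟩) := by
      rw [h, SimpleGraph.top_adj]
      intro h2
      exact absurd (Prod.mk.inj h2).1 (by decide)
    rcases T_edge h1 with ⟨h2, _, _⟩ | ⟨_, h2, _⟩ | ⟨_, _, h2⟩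
    · exact absurd h2 (by simp)
    · exact absurd h2 (by simp)
    · exact absurd h2 (by simp)
  · intro h
    have h1 : (T l).Adj ((0 : Fin 3), none) ((1 : Fin 3), none) := T_cc (by decide)
    rw [h] at h1
    exact h1

/-! ### Invariance under isomorphism -/

section Iso

variable {V W : Type} [Fintype V] [DecidableEq V] [Fintype W] [DecidableEq W]

lemma comps_iso_le {G : SimpleGraph V} {H : SimpleGraph W} (e : G ≃g H) (S : Finset V) :
    comps H (S.map e.toEquiv.toEmbedding) = comps G S := by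
  unfold comps
  apply Nat.card_congr
  apply SimpleGraph.Iso.connectedComponentEquiv
  have hmem : ∀ v : V, e v ∈ S.map e.toEquiv.toEmbedding ↔ v ∈ S := by
    intro v
    exact mem_map' e.toEquiv.toEmbedding
  refine SimpleGraph.Iso.symm ⟨⟨fun v => ⟨e v.1, fun h => v.2 ((hmem v.1).1 h)⟩,
    fun w => ⟨e.symm w.1, fun h => w.2 ?_⟩, ?_, ?_⟩, ?_⟩
  · have := (hmem (e.symm w.1)).2 h
    rwa [e.apply_symm_apply] at this
  · intro v
    exact Subtype.ext (e.symm_apply_apply v.1)
  · intro w
    exact Subtype.ext (e.apply_symm_apply w.1)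
  · intro a b
    exact e.map_adj_iff

lemma toughness_iso_le {G : SimpleGraph V} {H : SimpleGraph W} (e : G ≃g H) :
    toughness H ≤ toughness G := by
  apply le_iInf₂
  intro S hS
  have h1 := comps_iso_le e S
  refine (iInf₂_le (S.map e.toEquiv.toEmbedding) (by rw [h1]; exact hS)).trans ?_
  rw [h1, card_map]

lemma toughness_iso {G : SimpleGraph V} {H : SimpleGraph W} (e : G ≃g H) :
    toughness G = toughness H :=
  le_antisymm (toughness_iso_le e.symm) (toughness_iso_le e)

lemma nontriv_iso {G : SimpleGraph V} {H : SimpleGraph W} (e : G ≃g H)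
    (h : NontrivMinTough H) : NontrivMinTough G := by
  obtain ⟨h1, h2, h3⟩ := h
  refine ⟨?_, ?_, ?_⟩
  · intro u v huv
    have h4 := h1 (e u) (e v) (e.map_adj_iff.2 huv)
    rw [toughness_iso e]
    refine lt_of_eq_of_lt ?_ h4
    apply toughness_iso
    refine ⟨e.toEquiv, ?_⟩
    intro a b
    rw [SimpleGraph.deleteEdges_adj, SimpleGraph.deleteEdges_adj]
    have e1 : H.Adj (e a) (e b) ↔ G.Adj a b := e.map_adj_iff
    have e2 : s(e a, e b) ∈ ({s(e u, e v)} : Set (Sym2 W)) ↔
        s(a, b) ∈ ({s(u, v)} : Set (Sym2 V)) := by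
      rw [Set.mem_singleton_iff, Set.mem_singleton_iff, Sym2.eq_iff, Sym2.eq_iff,
        e.injective.eq_iff, e.injective.eq_iff, e.injective.eq_iff, e.injective.eq_iff]
    exact and_congr e1 (not_congr e2)
  · rintro rfl
    apply h2
    ext a b
    have := e.symm.map_adj_iff (v := a) (w := b)
    rw [← this, SimpleGraph.top_adj, SimpleGraph.top_adj, e.symm.injective.ne_iff]
  · rintro rfl
    apply h3
    ext a b
    have := e.symm.map_adj_iff (v := a) (w := b)
    rw [← this, SimpleGraph.bot_adj, SimpleGraph.bot_adj]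

end Iso

/-! ### `T l` is co-chordal with co-diameter two -/

/-- an elimination order excludes induced cycles -/
lemma chordal_of_rank {V : Type} (H : SimpleGraph V) (r : V → ℕ)
    (h : ∀ v u w, H.Adj v u → H.Adj v w → r v ≤ r u → r v ≤ r w → u ≠ w → H.Adj u w) :
    IsChordal H := by
  intro n hn
  obtain ⟨k, rfl⟩ : ∃ k, n = k + 2 := ⟨n - 2, by omega⟩
  refine ⟨fun φ => ?_⟩
  obtain ⟨i, _, hi⟩ := exists_min_image (univ : Finset (Fin (k + 2))) (fun i => r (φ i))
    univ_nonempty
  have hlt := i.isLt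
  obtain ⟨p, hp, hpi⟩ : ∃ p : Fin (k + 2), (p.val = i.val + 1 ∨ (p.val = 0 ∧ i.val = k + 1)) ∧
      (SimpleGraph.cycleGraph (k + 2)).Adj i p := by
    by_cases h1 : i.val = k + 1
    · refine ⟨⟨0, by omega⟩, Or.inr ⟨rfl, h1⟩, ?_⟩
      rw [Pool.Agent.H255R3.STC.cycle_adj]
      exact Or.inr (Or.inr (Or.inr ⟨rfl, h1⟩))
    · refine ⟨⟨i.val + 1, by omega⟩, Or.inl rfl, ?_⟩
      rw [Pool.Agent.H255R3.STC.cycle_adj]
      exact Or.inl rfl
  obtain ⟨q, hq, hqi⟩ : ∃ q : Fin (k + 2), (q.val + 1 = i.val ∨ (q.val = k + 1 ∧ i.val = 0)) ∧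
      (SimpleGraph.cycleGraph (k + 2)).Adj i q := by
    by_cases h1 : i.val = 0
    · refine ⟨⟨k + 1, by omega⟩, Or.inr ⟨rfl, h1⟩, ?_⟩
      rw [Pool.Agent.H255R3.STC.cycle_adj]
      exact Or.inr (Or.inr (Or.inl ⟨h1, rfl⟩))
    · have h2 : i.val - 1 + 1 = i.val := by omega
      refine ⟨⟨i.val - 1, by omega⟩, Or.inl h2, ?_⟩
      rw [Pool.Agent.H255R3.STC.cycle_adj]
      exact Or.inr (Or.inl h2)
  have hpq : p ≠ q := by
    intro h
    have := congrArg Fin.val h
    omega
  have h1 := h (φ i) (φ p) (φ q) (φ.map_adj_iff.2 hpi) (φ.map_adj_iff.2 hqi)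
    (hi p (mem_univ p)) (hi q (mem_univ q)) (fun h => hpq (φ.injective h))
  have h2 := φ.map_adj_iff.1 h1
  rw [Pool.Agent.H255R3.STC.cycle_adj] at h2
  omega

theorem T_chordal (l : ℕ) : IsChordal (T l)ᶜ := by
  apply chordal_of_rank _ (fun v => if v.2 = none then 0 else 1)
  rintro ⟨i, x⟩ ⟨j, y⟩ ⟨k, z⟩ h1 h2 h3 h4 hne
  rw [SimpleGraph.compl_adj] at h1 h2 ⊢
  refine ⟨hne, ?_⟩
  -- both others are leaves
  have hy : y ≠ none := by
    rintro rfl
    rcases x with _ | x
    · by_cases hij : i = j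
      · subst hij; exact h1.1 rfl
      · exact h1.2 (T_cc hij)
    · simp at h3
  have hz : z ≠ none := by
    rintro rfl
    rcases x with _ | x
    · by_cases hij : i = k
      · subst hij; exact h2.1 rfl
      · exact h2.2 (T_cc hij)
    · simp at h4
  intro h
  rcases T_edge h with ⟨h5, _, _⟩ | ⟨_, h5, _⟩ | ⟨_, _, h5⟩
  · exact hy h5
  · exact hy h5
  · exact hz h5

theorem T_coDiam (l : ℕ) (hl : 1 ≤ l) : CoDiamTwo (T l) := by
  -- every two different non-adjacent vertices have a common neighbour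
  have hcn : ∀ u v : Fin 3 × Option (Fin l), u ≠ v → ¬ (T l)ᶜ.Adj u v →
      ∃ c, (T l)ᶜ.Adj u c ∧ (T l)ᶜ.Adj c v := by
    intro u v huv hnadj
    have hadj : (T l).Adj u v := by
      by_contra h
      exact hnadj ((SimpleGraph.compl_adj _ _ _).2 ⟨huv, h⟩)
    -- a leaf of a third star
    obtain ⟨k, hk1, hk2⟩ : ∃ k : Fin 3, k ≠ u.1 ∧ k ≠ v.1 := by
      generalize u.1 = a
      generalize v.1 = b
      revert a b
      decide
    refine ⟨(k, some ⟨0, hl⟩), ?_, ?_⟩
    · rw [SimpleGraph.compl_adj]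
      refine ⟨fun h => hk1 (by rw [h]), ?_⟩
      intro h
      rcases T_edge h with ⟨_, h1, _⟩ | ⟨h1, _, _⟩ | ⟨h1, _, _⟩
      · exact absurd h1 (by simp)
      · exact hk1 h1.symm
      · exact hk1 h1.symm
    · rw [SimpleGraph.compl_adj]
      refine ⟨fun h => hk2 (by rw [← h]), ?_⟩
      intro h
      rcases T_edge h with ⟨h1, _, _⟩ | ⟨h1, _, _⟩ | ⟨h1, _, _⟩
      · exact absurd h1 (by simp)
      · exact hk2 h1
      · exact hk2 h1
  have hwalk : ∀ u v : Fin 3 × Option (Fin l), ∃ p : (T l)ᶜ.Walk u v, p.length ≤ 2 := by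
    intro u v
    by_cases huv : u = v
    · subst huv
      exact ⟨SimpleGraph.Walk.nil, by simp⟩
    · by_cases h : (T l)ᶜ.Adj u v
      · exact ⟨SimpleGraph.Walk.cons h SimpleGraph.Walk.nil, by simp⟩
      · obtain ⟨c, h1, h2⟩ := hcn u v huv h
        exact ⟨SimpleGraph.Walk.cons h1 (SimpleGraph.Walk.cons h2 SimpleGraph.Walk.nil), by simp⟩
  have hconn : (T l)ᶜ.Connected := by
    have : Nonempty (Fin 3 × Option (Fin l)) := ⟨(0, none)⟩
    exact ⟨fun u v => by obtain ⟨p, _⟩ := hwalk u v; exact ⟨p⟩⟩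
  refine ⟨hconn, ?_⟩
  have : Nonempty (Fin 3 × Option (Fin l)) := ⟨(0, none)⟩
  have htop : (T l)ᶜ.ediam ≠ ⊤ := SimpleGraph.connected_iff_ediam_ne_top.1 hconn
  apply le_antisymm
  · obtain ⟨u, v, huv⟩ := (T l)ᶜ.exists_dist_eq_diam
    rw [← huv]
    obtain ⟨p, hp⟩ := hwalk u v
    exact (SimpleGraph.dist_le p).trans hp
  · have h1 := SimpleGraph.dist_le_diam htop (u := ((0 : Fin 3), (none : Option (Fin l))))
      (v := ((1 : Fin 3), none))
    refine le_trans ?_ h1
    have hne : ((0 : Fin 3), (none : Option (Fin l))) ≠ ((1 : Fin 3), none) := by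
      intro h
      exact absurd (Prod.mk.inj h).1 (by decide)
    have h2 : (T l)ᶜ.dist ((0 : Fin 3), (none : Option (Fin l))) ((1 : Fin 3), none) ≠ 0 := by
      intro h
      rw [hconn.dist_eq_zero_iff] at h
      exact hne h
    have h3 : (T l)ᶜ.dist ((0 : Fin 3), (none : Option (Fin l))) ((1 : Fin 3), none) ≠ 1 := by
      intro h
      rw [SimpleGraph.dist_eq_one_iff_adj, SimpleGraph.compl_adj] at h
      exact h.2 (T_cc (by decide))
    omega

end Q109.Tough
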